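import Pool.Agent.TH937.FF5.Defs
set_option autoImplicit false
namespace Pool.Agent.TH937.FF5
open Set Filter Topology
open Pool.Agent.TH937.ZC (QL RCc)
open Pool.Agent.TH937.FF4 (Da)
open scoped ComplexConjugate

private theorem Ang_norm (p x t : ℝ) (hx : |x| ≤ 1) :
    ‖((p : ℂ) + t • ((x : ℂ) + (Real.sqrt (1 - x ^ 2) : ℂ) * Complex.I))‖ =
      Real.sqrt (p ^ 2 + 2 * t * x * p + t ^ 2) := by
  have h1 : 0 ≤ 1 - x ^ 2 := by
    have := (abs_le.1 hx)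
    nlinarith
  have h2 : (p : ℂ) + t • ((x : ℂ) + (Real.sqrt (1 - x ^ 2) : ℂ) * Complex.I) =
      ((p + t * x : ℝ) : ℂ) + ((t * Real.sqrt (1 - x ^ 2) : ℝ) : ℂ) * Complex.I := by
    rw [Complex.real_smul]
    push_cast
    ring
  rw [h2, Complex.norm_add_mul_I]
  congr 1
  have h3 : (t * Real.sqrt (1 - x ^ 2)) ^ 2 = t ^ 2 * (1 - x ^ 2) := by
    rw [mul_pow, Real.sq_sqrt h1]
  rw [h3]
  ring

private theorem Ang_der (p x t : ℝ) (h : 0 < p ^ 2 + 2 * t * x * p + t ^ 2) :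
    HasDerivAt (fun t : ℝ => Real.sqrt (p ^ 2 + 2 * t * x * p + t ^ 2))
      ((x * p + t) / Real.sqrt (p ^ 2 + 2 * t * x * p + t ^ 2)) t := by
  have h1 : HasDerivAt (fun t : ℝ => p ^ 2 + 2 * t * x * p + t ^ 2) (2 * x * p + 2 * t) t := by
    have h2 : HasDerivAt (fun t : ℝ => t) 1 t := hasDerivAt_id t
    have h3 := (((h2.const_mul 2).mul_const x).mul_const p).const_add (p ^ 2)
    have h4 := h3.add (h2.pow 2)
    refine h4.congr_deriv ?_
    simp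
  have h5 := h1.sqrt h.ne'
  refine h5.congr_deriv ?_
  have h6 : 0 < Real.sqrt (p ^ 2 + 2 * t * x * p + t ^ 2) := Real.sqrt_pos.2 h
  field_simp

private theorem Ang_der2 (p x : ℝ) (hp : 0 < p) :
    HasDerivAt (fun t : ℝ => (x * p + t) / Real.sqrt (p ^ 2 + 2 * t * x * p + t ^ 2))
      ((1 - x ^ 2) / p) 0 := by
  have h0 : (0 : ℝ) < p ^ 2 + 2 * 0 * x * p + 0 ^ 2 := by
    have : 0 < p ^ 2 := by positivity
    nlinarith
  have hs : Real.sqrt (p ^ 2 + 2 * 0 * x * p + 0 ^ 2) = p := by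
    have : p ^ 2 + 2 * 0 * x * p + 0 ^ 2 = p ^ 2 := by ring
    rw [this, Real.sqrt_sq hp.le]
  have h1 := Ang_der p x 0 h0
  have h2 : HasDerivAt (fun t : ℝ => x * p + t) 1 0 := by
    have := (hasDerivAt_id (0 : ℝ)).const_add (x * p)
    exact this
  have h3 := h2.div h1 (by rw [hs]; exact hp.ne')
  refine h3.congr_deriv ?_
  rw [hs]
  field_simp
  ring

private theorem Ang_conv {w : ℂ × ℂ → ℝ} (hR : RCc w) (F H : ℂ × ℂ) (hH : ‖H.1‖ = ‖H.2‖) :
    ConvexOn ℝ univ (fun t : ℝ => w (F + t • H)) := by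
  refine ⟨convex_univ, ?_⟩
  intro t _ u _ l m hl hm hlm
  have h1 := hR (F + t • H) ((u - t) • H) (by
    simp only [Prod.smul_fst, Prod.smul_snd, norm_smul, hH]) m hm (by linarith)
  have h2 : F + t • H + m • (u - t) • H = F + (l • t + m • u) • H := by
    have hl' : l = 1 - m := by linarith
    rw [hl', smul_smul, add_assoc, ← add_smul]
    congr 2
    simp only [smul_eq_mul]
    ring
  have h3 : F + t • H + (u - t) • H = F + u • H := by
    rw [add_assoc, ← add_smul]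
    congr 2
    ring
  rw [h2, h3] at h1
  have hl' : l = 1 - m := by linarith
  simp only [smul_eq_mul] at h1 ⊢
  rw [hl'] at h1 ⊢
  exact h1

private theorem Ang_nonneg {f f' : ℝ → ℝ} {d : ℝ} (hf : ConvexOn ℝ univ f)
    (h1 : ∀ᶠ t in 𝓝 (0 : ℝ), HasDerivAt f (f' t) t) (h2 : HasDerivAt f' d 0) : 0 ≤ d := by
  have h3 := (hasDerivAt_iff_tendsto_slope.1 h2).mono_left
    (nhdsWithin_mono (0 : ℝ) (fun t (ht : t ∈ Ioi (0 : ℝ)) => ne_of_gt ht))
  refine ge_of_tendsto h3 ?_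
  have h4 : ∀ᶠ t in 𝓝[>] (0 : ℝ), HasDerivAt f (f' t) t := h1.filter_mono nhdsWithin_le_nhds
  have h0 : HasDerivAt f (f' 0) 0 := h1.self_of_nhds
  filter_upwards [h4, self_mem_nhdsWithin] with t ht htp
  have htp' : (0 : ℝ) < t := htp
  have h5 := hf.le_slope_of_hasDerivAt (mem_univ 0) (mem_univ t) htp' h0
  have h6 := hf.slope_le_of_hasDerivAt (mem_univ 0) (mem_univ t) htp' ht
  rw [slope_def_field]
  have h7 : 0 ≤ f' t - f' 0 := by linarith
  have h8 : 0 ≤ t - 0 := by linarith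
  exact div_nonneg h7 h8

theorem ang {D : Da} (hD : Reg D) (hR : RCc D.w) {p q x y : ℝ} (hq : 0 < q) (hpq : q < p)
    (hx : |x| ≤ 1) (hy : |y| ≤ 1) :
    0 ≤ (D.gss (p + q) (p - q) + 2 * D.gsv (p + q) (p - q) + D.gvv (p + q) (p - q)) * x ^ 2
      + 2 * (D.gss (p + q) (p - q) - D.gvv (p + q) (p - q)) * (x * y)
      + (D.gss (p + q) (p - q) - 2 * D.gsv (p + q) (p - q) + D.gvv (p + q) (p - q)) * y ^ 2
      + (D.gs (p + q) (p - q) + D.gv (p + q) (p - q)) * (1 - x ^ 2) / p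
      + (D.gs (p + q) (p - q) - D.gv (p + q) (p - q)) * (1 - y ^ 2) / q := by
  have hp : 0 < p := hq.trans hpq
  set H : ℂ × ℂ := ((x : ℂ) + (Real.sqrt (1 - x ^ 2) : ℂ) * Complex.I,
    (y : ℂ) + (Real.sqrt (1 - y ^ 2) : ℂ) * Complex.I) with hH
  set F : ℂ × ℂ := ((p : ℂ), (q : ℂ)) with hF
  have hn : ‖H.1‖ = ‖H.2‖ := by
    have h1 := Ang_norm 0 x 1 hx
    have h2 := Ang_norm 0 y 1 hy
    simp only [Complex.ofReal_zero, zero_add, one_smul, mul_zero] at h1 h2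
    rw [hH]
    simp only
    rw [h1, h2]
  have hconv := Ang_conv hR F H hn
  set P : ℝ → ℝ := fun t => Real.sqrt (p ^ 2 + 2 * t * x * p + t ^ 2) with hP
  set Q : ℝ → ℝ := fun t => Real.sqrt (q ^ 2 + 2 * t * y * q + t ^ 2) with hQ
  have hw : (fun t : ℝ => D.w (F + t • H)) = fun t => D.g (P t + Q t) (P t - Q t) := by
    funext t
    have h1 := Ang_norm p x t hx
    have h2 := Ang_norm q y t hy
    show D.g (‖(F + t • H).1‖ + ‖(F + t • H).2‖) (‖(F + t • H).1‖ - ‖(F + t • H).2‖) = _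
    have e1 : (F + t • H).1 = (p : ℂ) + t • ((x : ℂ) + (Real.sqrt (1 - x ^ 2) : ℂ) * Complex.I) := rfl
    have e2 : (F + t • H).2 = (q : ℂ) + t • ((y : ℂ) + (Real.sqrt (1 - y ^ 2) : ℂ) * Complex.I) := rfl
    rw [e1, e2, h1, h2]
  rw [hw] at hconv
  have hP0 : P 0 = p := by
    have : p ^ 2 + 2 * 0 * x * p + 0 ^ 2 = p ^ 2 := by ring
    simp only [hP]
    rw [this, Real.sqrt_sq hp.le]
  have hQ0 : Q 0 = q := by
    have : q ^ 2 + 2 * 0 * y * q + 0 ^ 2 = q ^ 2 := by ring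
    simp only [hQ]
    rw [this, Real.sqrt_sq hq.le]
  have hPc : Continuous P := by
    simp only [hP]
    fun_prop
  have hQc : Continuous Q := by
    simp only [hQ]
    fun_prop
  set P' : ℝ → ℝ := fun t => (x * p + t) / Real.sqrt (p ^ 2 + 2 * t * x * p + t ^ 2) with hP'
  set Q' : ℝ → ℝ := fun t => (y * q + t) / Real.sqrt (q ^ 2 + 2 * t * y * q + t ^ 2) with hQ'
  have hP'0 : P' 0 = x := by
    simp only [hP']
    have h1 : Real.sqrt (p ^ 2 + 2 * 0 * x * p + 0 ^ 2) = p := hP0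
    rw [h1]
    field_simp
    ring
  have hQ'0 : Q' 0 = y := by
    simp only [hQ']
    have h1 : Real.sqrt (q ^ 2 + 2 * 0 * y * q + 0 ^ 2) = q := hQ0
    rw [h1]
    field_simp
    ring
  -- near `0`
  have hev : ∀ᶠ t in 𝓝 (0 : ℝ), 0 < P t ∧ 0 < Q t ∧ 0 < P t - Q t := by
    have e1 : ∀ᶠ t in 𝓝 (0 : ℝ), 0 < P t :=
      hPc.continuousAt.eventually (lt_mem_nhds (by rw [hP0]; exact hp))
    have e2 : ∀ᶠ t in 𝓝 (0 : ℝ), 0 < Q t :=
      hQc.continuousAt.eventually (lt_mem_nhds (by rw [hQ0]; exact hq))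
    have e3 : ∀ᶠ t in 𝓝 (0 : ℝ), 0 < P t - Q t :=
      (hPc.sub hQc).continuousAt.eventually (lt_mem_nhds (by
        show 0 < P 0 - Q 0
        rw [hP0, hQ0]; linarith))
    filter_upwards [e1, e2, e3] with t h1 h2 h3
    exact ⟨h1, h2, h3⟩
  have hPd : ∀ t, 0 < P t → HasDerivAt P (P' t) t := fun t ht => Ang_der p x t (Real.sqrt_pos.1 ht)
  have hQd : ∀ t, 0 < Q t → HasDerivAt Q (Q' t) t := fun t ht => Ang_der q y t (Real.sqrt_pos.1 ht)
  set f' : ℝ → ℝ := fun t => D.gs (P t + Q t) (P t - Q t) * (P' t + Q' t) +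
    D.gv (P t + Q t) (P t - Q t) * (P' t - Q' t) with hf'
  have hd1 : ∀ᶠ t in 𝓝 (0 : ℝ), HasDerivAt (fun t => D.g (P t + Q t) (P t - Q t)) (f' t) t := by
    filter_upwards [hev] with t ht
    obtain ⟨h1, h2, h3⟩ := ht
    have hS := (hPd t h1).add (hQd t h2)
    have hV := (hPd t h1).sub (hQd t h2)
    have hs : 0 < P t + Q t := by linarith
    have ka := (hD.a1 (P t - Q t) h3.ne').comp t hV
    have kb := (hD.b1 (P t - Q t) h3.ne').comp t hV
    have kh := (hD.h1 (P t + Q t) hs).comp t hS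
    have kc := (hD.c1 (P t + Q t) hs).comp t hS
    have k := (((ka.mul hS).add kb).add kh).add (kc.mul hV)
    refine (k.congr_deriv ?_)
    simp only [hf', Da.gs, Da.gv, Function.comp_apply, Pi.add_apply, Pi.sub_apply]
    ring
  have hd2 : HasDerivAt f' ((D.gss (p + q) (p - q) * (x + y) + D.gsv (p + q) (p - q) * (x - y)) *
      (x + y) + D.gs (p + q) (p - q) * ((1 - x ^ 2) / p + (1 - y ^ 2) / q) +
      ((D.gsv (p + q) (p - q) * (x + y) + D.gvv (p + q) (p - q) * (x - y)) * (x - y) +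
      D.gv (p + q) (p - q) * ((1 - x ^ 2) / p - (1 - y ^ 2) / q))) 0 := by
    have hP1 := hPd 0 (by rw [hP0]; exact hp)
    have hQ1 := hQd 0 (by rw [hQ0]; exact hq)
    rw [hP'0] at hP1
    rw [hQ'0] at hQ1
    have hP2 : HasDerivAt P' ((1 - x ^ 2) / p) 0 := Ang_der2 p x hp
    have hQ2 : HasDerivAt Q' ((1 - y ^ 2) / q) 0 := Ang_der2 q y hq
    have hS : HasDerivAt (fun t => P t + Q t) (x + y) 0 := hP1.add hQ1
    have hV : HasDerivAt (fun t => P t - Q t) (x - y) 0 := hP1.sub hQ1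
    have hS2 : HasDerivAt (fun t => P' t + Q' t) ((1 - x ^ 2) / p + (1 - y ^ 2) / q) 0 :=
      hP2.add hQ2
    have hV2 : HasDerivAt (fun t => P' t - Q' t) ((1 - x ^ 2) / p - (1 - y ^ 2) / q) 0 :=
      hP2.sub hQ2
    have hv : 0 < P 0 - Q 0 := by rw [hP0, hQ0]; linarith
    have hs : 0 < P 0 + Q 0 := by rw [hP0, hQ0]; linarith
    have ka : HasDerivAt (fun t => D.a (P t - Q t)) (D.a1 (P 0 - Q 0) * (x - y)) 0 :=
      (hD.a1 (P 0 - Q 0) hv.ne').comp (0 : ℝ) hV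
    have ka1 : HasDerivAt (fun t => D.a1 (P t - Q t)) (D.a2 (P 0 - Q 0) * (x - y)) 0 :=
      (hD.a2 (P 0 - Q 0) hv).comp (0 : ℝ) hV
    have kb1 : HasDerivAt (fun t => D.b1 (P t - Q t)) (D.b2 (P 0 - Q 0) * (x - y)) 0 :=
      (hD.b2 (P 0 - Q 0) hv).comp (0 : ℝ) hV
    have kh1 : HasDerivAt (fun t => D.h1 (P t + Q t)) (D.h2 (P 0 + Q 0) * (x + y)) 0 :=
      (hD.h2 (P 0 + Q 0) hs).comp (0 : ℝ) hS
    have kc : HasDerivAt (fun t => D.c (P t + Q t)) (D.c1 (P 0 + Q 0) * (x + y)) 0 :=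
      (hD.c1 (P 0 + Q 0) hs).comp (0 : ℝ) hS
    have kc1 : HasDerivAt (fun t => D.c1 (P t + Q t)) (D.c2 (P 0 + Q 0) * (x + y)) 0 :=
      (hD.c2 (P 0 + Q 0) hs).comp (0 : ℝ) hS
    have kgs : HasDerivAt (fun t => D.gs (P t + Q t) (P t - Q t))
        (D.gss (P 0 + Q 0) (P 0 - Q 0) * (x + y) + D.gsv (P 0 + Q 0) (P 0 - Q 0) * (x - y)) 0 := by
      have k := (ka.add kh1).add (kc1.mul hV)
      refine k.congr_deriv ?_
      simp only [Da.gss, Da.gsv]
      ring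
    have kgv : HasDerivAt (fun t => D.gv (P t + Q t) (P t - Q t))
        (D.gsv (P 0 + Q 0) (P 0 - Q 0) * (x + y) + D.gvv (P 0 + Q 0) (P 0 - Q 0) * (x - y)) 0 := by
      have k := ((ka1.mul hS).add kb1).add kc
      refine k.congr_deriv ?_
      simp only [Da.gvv, Da.gsv]
      ring
    have k := (kgs.mul hS2).add (kgv.mul hV2)
    refine k.congr_deriv ?_
    simp only [hP0, hQ0, hP'0, hQ'0]
  have key := Ang_nonneg hconv hd1 hd2
  have e : (D.gss (p + q) (p - q) * (x + y) + D.gsv (p + q) (p - q) * (x - y)) *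
      (x + y) + D.gs (p + q) (p - q) * ((1 - x ^ 2) / p + (1 - y ^ 2) / q) +
      ((D.gsv (p + q) (p - q) * (x + y) + D.gvv (p + q) (p - q) * (x - y)) * (x - y) +
      D.gv (p + q) (p - q) * ((1 - x ^ 2) / p - (1 - y ^ 2) / q)) =
      (D.gss (p + q) (p - q) + 2 * D.gsv (p + q) (p - q) + D.gvv (p + q) (p - q)) * x ^ 2
      + 2 * (D.gss (p + q) (p - q) - D.gvv (p + q) (p - q)) * (x * y)
      + (D.gss (p + q) (p - q) - 2 * D.gsv (p + q) (p - q) + D.gvv (p + q) (p - q)) * y ^ 2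
      + (D.gs (p + q) (p - q) + D.gv (p + q) (p - q)) * (1 - x ^ 2) / p
      + (D.gs (p + q) (p - q) - D.gv (p + q) (p - q)) * (1 - y ^ 2) / q := by
    ring
  rw [e] at key
  exact key

end Pool.Agent.TH937.FF5
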