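import Pool.Agent.TH937.FF4.Defs

/-!
# Morrey's problem for `W = a(v) s + b(v) + h(s) + c(s) v`: functions smooth away from `0`
-/

set_option autoImplicit false

namespace Pool.Agent.TH937.FF5

open Set Filter Topology
open Pool.Agent.TH937.ZC (QL RCc)
open Pool.Agent.TH937.FF4 (Da)

/-- the derivatives away from `0` -/
structure Reg (D : Da) : Prop where
  ca : Continuous D.a
  cb : Continuous D.b
  a1 : ∀ x, x ≠ 0 → HasDerivAt D.a (D.a1 x) x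
  b1 : ∀ x, x ≠ 0 → HasDerivAt D.b (D.b1 x) x
  h1 : ∀ x, 0 < x → HasDerivAt D.h (D.h1 x) x
  c1 : ∀ x, 0 < x → HasDerivAt D.c (D.c1 x) x
  a2 : ∀ x, 0 < x → HasDerivAt D.a1 (D.a2 x) x
  b2 : ∀ x, 0 < x → HasDerivAt D.b1 (D.b2 x) x
  h2 : ∀ x, 0 < x → HasDerivAt D.h1 (D.h2 x) x
  c2 : ∀ x, 0 < x → HasDerivAt D.c1 (D.c2 x) x
  la : ∀ r R : ℝ, 0 < r → ∃ L : ℝ, ∀ x y, r ≤ x → x ≤ R → r ≤ y → y ≤ R →
    |D.a2 x - D.a2 y| ≤ L * |x - y|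
  lb : ∀ r R : ℝ, 0 < r → ∃ L : ℝ, ∀ x y, r ≤ x → x ≤ R → r ≤ y → y ≤ R →
    |D.b2 x - D.b2 y| ≤ L * |x - y|

/-- the consequences of rank-one convexity that are used, for `v ≥ m` -/
structure Cn (D : Da) (η m : ℝ) : Prop where
  m0 : 0 < m
  ss : ∀ s v, |v| ≤ s → 0 < s → 0 ≤ D.gss s v
  vv : ∀ s v, m ≤ v → v ≤ s → η ≤ D.gvv s v
  x0 : ∀ s, m ≤ s → 0 ≤ D.X s m
  y0 : ∀ s v, m ≤ v → v ≤ s → 0 ≤ D.Y s v
  al : ∀ s v, m ≤ v → v < s → 0 ≤ s * D.gs s v - v * D.gv s v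
  rx : ∀ s v l, m ≤ v → v < s → 0 ≤ l →
    0 ≤ D.gss s v + l ^ 2 * D.gvv s v + 2 * l * D.X s v / (s + v)
  tl : ∀ p0 q0 p q, 0 < q0 → 0 ≤ q → m ≤ p0 - q0 → m ≤ p - q →
    |p - p0| ≤ |q - q0| → |q - q0| ≤ p + p0 →
    D.g (p0 + q0) (p0 - q0)
      + (D.gs (p0 + q0) (p0 - q0) + D.gv (p0 + q0) (p0 - q0))
        * ((p ^ 2 - p0 ^ 2 - (q - q0) ^ 2) / (2 * p0))
      + (D.gs (p0 + q0) (p0 - q0) - D.gv (p0 + q0) (p0 - q0)) * (q - q0) ≤ D.g (p + q) (p - q)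

/-- the curve -/
structure Cv (D : Da) (m s0 v0 S : ℝ) (γ : ℝ → ℝ) : Prop where
  m0 : 0 < m
  mv : m ≤ v0
  hv : v0 < s0
  hS : s0 < S
  ini : γ s0 = v0
  bd : ∀ s ∈ Icc s0 S, m ≤ γ s ∧ γ s ≤ v0
  de : ∀ s ∈ Icc s0 S, HasDerivWithinAt γ (D.fm s (γ s)) (Icc s0 S) s

/-- add `η (s ^ 2 + v ^ 2) / 2 + δ s` -/
noncomputable def pert (D : Da) (η δ : ℝ) : Da where
  a := fun v => D.a v + δ
  b := fun v => D.b v + η * v ^ 2 / 2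
  h := fun s => D.h s + η * s ^ 2 / 2
  c := D.c
  a1 := D.a1
  b1 := fun v => D.b1 v + η * v
  h1 := fun s => D.h1 s + η * s
  c1 := D.c1
  a2 := D.a2
  b2 := fun v => D.b2 v + η
  h2 := fun s => D.h2 s + η
  c2 := D.c2

end Pool.Agent.TH937.FF5
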