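import Pool.Agent.TH937.FF5.Defs
set_option autoImplicit false
namespace Pool.Agent.TH937.FF5
open Set Filter Topology
open Pool.Agent.TH937.ZC (QL RCc)
open Pool.Agent.TH937.FF4 (Da)
open scoped ComplexConjugate

theorem pert_reg {D : Da} (hD : Reg D) (η δ : ℝ) : Reg (pert D η δ) := by
  have hq : ∀ x : ℝ, HasDerivAt (fun v : ℝ => η * v ^ 2 / 2) (η * x) x := by
    intro x
    have := ((hasDerivAt_pow 2 x).const_mul η).div_const 2
    refine this.congr_deriv ?_
    push_cast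
    ring
  have hl : ∀ x : ℝ, HasDerivAt (fun v : ℝ => η * v) η x := by
    intro x
    simpa using (hasDerivAt_id x).const_mul η
  refine ⟨?_, ?_, ?_, ?_, ?_, hD.c1, hD.a2, ?_, ?_, hD.c2, hD.la, ?_⟩
  · exact hD.ca.add continuous_const
  · exact hD.cb.add (by fun_prop)
  · intro x hx
    exact (hD.a1 x hx).add_const δ
  · intro x hx
    exact (hD.b1 x hx).add (hq x)
  · intro x hx
    exact (hD.h1 x hx).add (hq x)
  · intro x hx
    exact (hD.b2 x hx).add (hl x)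
  · intro x hx
    exact (hD.h2 x hx).add (hl x)
  · intro r R hr
    obtain ⟨L, hL⟩ := hD.lb r R hr
    refine ⟨L, fun x y hx hx' hy hy' => ?_⟩
    have := hL x y hx hx' hy hy'
    have e : (pert D η δ).b2 x - (pert D η δ).b2 y = D.b2 x - D.b2 y := by
      simp only [pert]; ring
    rw [e]; exact this

theorem pert_cn {D : Da} {η δ m : ℝ} (hη : 0 ≤ η) (hδ : 0 ≤ δ) (m0 : 0 < m)
    (ss : ∀ s v, |v| ≤ s → 0 < s → 0 ≤ D.gss s v)
    (vv : ∀ s v, m ≤ v → v ≤ s → 0 ≤ D.gvv s v)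
    (x0 : ∀ s, m ≤ s → -δ ≤ D.X s m)
    (y0 : ∀ s v, m ≤ v → v ≤ s → 0 ≤ D.Y s v)
    (al : ∀ s v, m ≤ v → v < s → 0 ≤ s * D.gs s v - v * D.gv s v)
    (rx : ∀ s v l, m ≤ v → v < s → 0 ≤ l →
      0 ≤ D.gss s v + l ^ 2 * D.gvv s v + 2 * l * D.X s v / (s + v))
    (tl : ∀ p0 q0 p q, 0 < q0 → 0 ≤ q → m ≤ p0 - q0 → m ≤ p - q →
      |p - p0| ≤ |q - q0| → |q - q0| ≤ p + p0 →
      D.g (p0 + q0) (p0 - q0)
        + (D.gs (p0 + q0) (p0 - q0) + D.gv (p0 + q0) (p0 - q0))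
          * ((p ^ 2 - p0 ^ 2 - (q - q0) ^ 2) / (2 * p0))
        + (D.gs (p0 + q0) (p0 - q0) - D.gv (p0 + q0) (p0 - q0)) * (q - q0)
          ≤ D.g (p + q) (p - q)) :
    Cn (pert D η δ) η m := by
  have egs : ∀ s v, (pert D η δ).gs s v = D.gs s v + η * s + δ := fun s v => by
    simp only [Da.gs, pert]; ring
  have egv : ∀ s v, (pert D η δ).gv s v = D.gv s v + η * v := fun s v => by
    simp only [Da.gv, pert]; ring
  have egss : ∀ s v, (pert D η δ).gss s v = D.gss s v + η := fun s v => by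
    simp only [Da.gss, pert]; ring
  have egvv : ∀ s v, (pert D η δ).gvv s v = D.gvv s v + η := fun s v => by
    simp only [Da.gvv, pert]; ring
  have eX : ∀ s v, (pert D η δ).X s v = D.X s v + η * (s + v) + δ := fun s v => by
    simp only [Da.X, Da.gs, Da.gv, Da.gsv, pert]; ring
  have eY : ∀ s v, (pert D η δ).Y s v = D.Y s v + η * (s - v) + δ := fun s v => by
    simp only [Da.Y, Da.gs, Da.gv, Da.gsv, pert]; ring
  have eg : ∀ s v, (pert D η δ).g s v = D.g s v + η * (s ^ 2 + v ^ 2) / 2 + δ * s := fun s v => by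
    simp only [Da.g, pert]; ring
  refine ⟨m0, ?_, ?_, ?_, ?_, ?_, ?_, ?_⟩
  · intro s v hv hs
    rw [egss]; have := ss s v hv hs; linarith
  · intro s v hv hs
    rw [egvv]; have := vv s v hv hs; linarith
  · intro s hs
    rw [eX]; have := x0 s hs
    have := mul_nonneg hη (show (0 : ℝ) ≤ s + m by linarith)
    linarith
  · intro s v hv hs
    rw [eY]; have := y0 s v hv hs
    have := mul_nonneg hη (show (0 : ℝ) ≤ s - v by linarith)
    linarith
  · intro s v hv hs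
    rw [egs, egv]; have h0 := al s v hv hs
    have h1 : 0 ≤ s + v := by linarith
    have h2 : 0 ≤ s - v := by linarith
    have h3 := mul_nonneg hη (mul_nonneg h1 h2)
    have h4 := mul_nonneg hδ (show (0 : ℝ) ≤ s by linarith)
    have e : s * (D.gs s v + η * s + δ) - v * (D.gv s v + η * v) =
        (s * D.gs s v - v * D.gv s v) + η * ((s + v) * (s - v)) + δ * s := by ring
    rw [e]
    linarith
  · intro s v l hv hs hl
    rw [egss, egvv, eX]
    have h0 := rx s v l hv hs hl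
    have h1 : 0 < s + v := by linarith
    have e : D.gss s v + η + l ^ 2 * (D.gvv s v + η)
        + 2 * l * (D.X s v + η * (s + v) + δ) / (s + v) =
        (D.gss s v + l ^ 2 * D.gvv s v + 2 * l * D.X s v / (s + v)) + η * (1 + l) ^ 2
          + 2 * l * δ / (s + v) := by
      field_simp
      ring
    rw [e]
    have h2 := mul_nonneg hη (sq_nonneg (1 + l))
    have h3 : 0 ≤ 2 * l * δ / (s + v) := by positivity
    linarith
  · intro p0 q0 p q hq0 hq hp0 hp h1 h2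
    have h0 := tl p0 q0 p q hq0 hq hp0 hp h1 h2
    have hp00 : 0 < p0 := by linarith
    rw [eg, eg, egs, egv]
    have e : D.g (p0 + q0) (p0 - q0) + η * ((p0 + q0) ^ 2 + (p0 - q0) ^ 2) / 2 + δ * (p0 + q0)
      + (D.gs (p0 + q0) (p0 - q0) + η * (p0 + q0) + δ + (D.gv (p0 + q0) (p0 - q0) + η * (p0 - q0)))
        * ((p ^ 2 - p0 ^ 2 - (q - q0) ^ 2) / (2 * p0))
      + (D.gs (p0 + q0) (p0 - q0) + η * (p0 + q0) + δ - (D.gv (p0 + q0) (p0 - q0) + η * (p0 - q0)))
        * (q - q0) =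
      (D.g (p0 + q0) (p0 - q0)
      + (D.gs (p0 + q0) (p0 - q0) + D.gv (p0 + q0) (p0 - q0))
        * ((p ^ 2 - p0 ^ 2 - (q - q0) ^ 2) / (2 * p0))
      + (D.gs (p0 + q0) (p0 - q0) - D.gv (p0 + q0) (p0 - q0)) * (q - q0)) +
      η * (p ^ 2 + q ^ 2) - 2 * (η * (q - q0) ^ 2) +
      δ * (p0 + (p ^ 2 - p0 ^ 2 - (q - q0) ^ 2) / (2 * p0) + q) := by
      field_simp
      ring
    rw [e]
    have h3 := mul_nonneg hη (sq_nonneg (q - q0))
    have h4 : (p ^ 2 - p0 ^ 2 - (q - q0) ^ 2) / (2 * p0) ≤ p - p0 := by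
      rw [div_le_iff₀ (by linarith)]
      have h5 : (p - p0) ^ 2 ≤ (q - q0) ^ 2 := sq_le_sq.2 h1
      nlinarith
    have h6 : δ * (p0 + (p ^ 2 - p0 ^ 2 - (q - q0) ^ 2) / (2 * p0) + q) ≤ δ * (p + q) :=
      mul_le_mul_of_nonneg_left (by linarith) hδ
    nlinarith

end Pool.Agent.TH937.FF5
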