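import Pool.Agent.TH937.FF5.Defs

/-!
# The second derivatives in the two variables
-/

set_option autoImplicit false

namespace Pool.Agent.TH937.FF5

open Set Filter Topology
open Pool.Agent.TH937.ZC (QL RCc)
open Pool.Agent.TH937.FF4 (Da)
open scoped ComplexConjugate

private theorem SsVv_diag (D : Da) {s v : ℝ} (h : |v| ≤ s) :
    D.w ((((v + s) / 2 : ℝ) : ℂ), (((v - s) / 2 : ℝ) : ℂ)) = D.g s v := by
  obtain ⟨h1, h2⟩ := abs_le.1 h
  have e1 : ‖(((v + s) / 2 : ℝ) : ℂ)‖ = (v + s) / 2 := by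
    rw [Complex.norm_real, Real.norm_eq_abs, abs_of_nonneg (by linarith)]
  have e2 : ‖(((v - s) / 2 : ℝ) : ℂ)‖ = (s - v) / 2 := by
    rw [Complex.norm_real, Real.norm_eq_abs, abs_of_nonpos (by linarith)]
    ring
  unfold Da.w
  simp only [e1, e2]
  congr 1 <;> ring

private theorem SsVv_conv_v {D : Da} (hR : RCc D.w) (s : ℝ) :
    ConvexOn ℝ (Icc (-s) s) (fun v => D.g s v) := by
  refine ⟨convex_Icc _ _, fun x hx y hy α β hα hβ hαβ => ?_⟩
  have hx' : |x| ≤ s := abs_le.2 hx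
  have hy' : |y| ≤ s := abs_le.2 hy
  have hz : |α • x + β • y| ≤ s := abs_le.2 ((convex_Icc (-s) s) hx hy hα hβ hαβ)
  have h := hR ((((x + s) / 2 : ℝ) : ℂ), (((x - s) / 2 : ℝ) : ℂ))
    ((((y - x) / 2 : ℝ) : ℂ), (((y - x) / 2 : ℝ) : ℂ)) rfl β hβ (by linarith)
  have e1 : ((((x + s) / 2 : ℝ) : ℂ), (((x - s) / 2 : ℝ) : ℂ))
      + ((((y - x) / 2 : ℝ) : ℂ), (((y - x) / 2 : ℝ) : ℂ))
      = ((((y + s) / 2 : ℝ) : ℂ), (((y - s) / 2 : ℝ) : ℂ)) := by
    rw [Prod.mk_add_mk]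
    congr 1 <;> (push_cast; ring)
  have hα' : α = 1 - β := by linarith
  have e2 : ((((x + s) / 2 : ℝ) : ℂ), (((x - s) / 2 : ℝ) : ℂ))
      + β • ((((y - x) / 2 : ℝ) : ℂ), (((y - x) / 2 : ℝ) : ℂ))
      = ((((α • x + β • y + s) / 2 : ℝ) : ℂ), (((α • x + β • y - s) / 2 : ℝ) : ℂ)) := by
    rw [Prod.smul_mk, Prod.mk_add_mk]
    simp only [Complex.real_smul, smul_eq_mul]
    rw [hα']
    congr 1 <;> (push_cast; ring)
  rw [e1, e2, SsVv_diag D hx', SsVv_diag D hy', SsVv_diag D hz] at h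
  simp only [smul_eq_mul] at h ⊢
  rw [hα'] at h ⊢
  exact h

private theorem SsVv_conv_s {D : Da} (hR : RCc D.w) (v : ℝ) :
    ConvexOn ℝ (Ici |v|) (fun s => D.g s v) := by
  refine ⟨convex_Ici _, fun x hx y hy α β hα hβ hαβ => ?_⟩
  have hx' : |v| ≤ x := hx
  have hy' : |v| ≤ y := hy
  have hz : |v| ≤ α • x + β • y := (convex_Ici |v|) hx hy hα hβ hαβ
  have h := hR ((((v + x) / 2 : ℝ) : ℂ), (((v - x) / 2 : ℝ) : ℂ))
    ((((y - x) / 2 : ℝ) : ℂ), ((-((y - x) / 2) : ℝ) : ℂ))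
    (by simp only [Complex.norm_real, norm_neg]) β hβ (by linarith)
  have e1 : ((((v + x) / 2 : ℝ) : ℂ), (((v - x) / 2 : ℝ) : ℂ))
      + ((((y - x) / 2 : ℝ) : ℂ), ((-((y - x) / 2) : ℝ) : ℂ))
      = ((((v + y) / 2 : ℝ) : ℂ), (((v - y) / 2 : ℝ) : ℂ)) := by
    rw [Prod.mk_add_mk]
    congr 1 <;> (push_cast; ring)
  have hα' : α = 1 - β := by linarith
  have e2 : ((((v + x) / 2 : ℝ) : ℂ), (((v - x) / 2 : ℝ) : ℂ))
      + β • ((((y - x) / 2 : ℝ) : ℂ), ((-((y - x) / 2) : ℝ) : ℂ))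
      = ((((v + (α • x + β • y)) / 2 : ℝ) : ℂ), (((v - (α • x + β • y)) / 2 : ℝ) : ℂ)) := by
    rw [Prod.smul_mk, Prod.mk_add_mk]
    simp only [Complex.real_smul, smul_eq_mul]
    rw [hα']
    congr 1 <;> (push_cast; ring)
  rw [e1, e2, SsVv_diag D hx', SsVv_diag D hy', SsVv_diag D hz] at h
  simp only [smul_eq_mul] at h ⊢
  rw [hα'] at h ⊢
  exact h

private theorem SsVv_second {f f1 : ℝ → ℝ} {l r x f2 : ℝ} (hf : ConvexOn ℝ (Ioo l r) f)
    (h1 : ∀ t ∈ Ioo l r, HasDerivAt f (f1 t) t) (hx : x ∈ Ioo l r) (h2 : HasDerivAt f1 f2 x) :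
    0 ≤ f2 := by
  have hmono : ∀ a ∈ Ioo l r, ∀ b ∈ Ioo l r, a < b → f1 a ≤ f1 b := fun a ha b hb hab =>
    (hf.le_slope_of_hasDerivAt ha hb hab (h1 a ha)).trans
      (hf.slope_le_of_hasDerivAt ha hb hab (h1 b hb))
  rw [hasDerivAt_iff_tendsto_slope] at h2
  refine ge_of_tendsto h2 ?_
  have h3 : Ioo l r ∈ 𝓝[≠] x := mem_nhdsWithin_of_mem_nhds (Ioo_mem_nhds hx.1 hx.2)
  filter_upwards [h3, self_mem_nhdsWithin] with t ht hne
  rw [slope_def_field]
  rcases lt_or_gt_of_ne hne with h | h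
  · exact div_nonneg_of_nonpos (by linarith [hmono t ht x hx h]) (by linarith)
  · exact div_nonneg (by linarith [hmono x hx t ht h]) (by linarith)

theorem ss_vv {D : Da} (hD : Reg D) (hR : RCc D.w) :
    (∀ s v, |v| ≤ s → 0 < s → 0 ≤ D.gss s v) ∧ (∀ s v, 0 < v → v ≤ s → 0 ≤ D.gvv s v) := by
  constructor
  · have key : ∀ s v, |v| < s → 0 ≤ D.gss s v := by
      intro s v hv
      have hf : ConvexOn ℝ (Ioo |v| (s + 1)) (fun s => D.g s v) :=
        (SsVv_conv_s hR v).subset (fun t ht => ht.1.le) (convex_Ioo _ _)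
      refine SsVv_second (f1 := fun t => D.gs t v) hf (fun t ht => ?_) ⟨hv, by linarith⟩ ?_
      · have ht0 : 0 < t := (abs_nonneg v).trans_lt ht.1
        have e1 := (((hasDerivAt_id t).const_mul (D.a v)).add_const (D.b v)).add (hD.h1 t ht0)
        have e2 := e1.add ((hD.c1 t ht0).mul_const v)
        have e3 : D.a v * 1 + D.h1 t + D.c1 t * v = D.gs t v := by
          unfold Da.gs
          ring
        rw [e3] at e2
        exact e2
      · have hs0 : 0 < s := (abs_nonneg v).trans_lt hv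
        have e1 := ((hD.h2 s hs0).const_add (D.a v)).add ((hD.c2 s hs0).mul_const v)
        exact e1
    intro s v hv hs
    have hcl : Icc (-s) s ⊆ {v : ℝ | 0 ≤ D.gss s v} := by
      rw [← closure_Ioo (by linarith)]
      refine closure_minimal (fun t ht => key s t (abs_lt.2 ht)) (isClosed_le continuous_const ?_)
      unfold Da.gss
      fun_prop
    exact hcl (abs_le.1 hv)
  · have key : ∀ s v, 0 < v → v < s → 0 ≤ D.gvv s v := by
      intro s v hv hvs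
      have hf : ConvexOn ℝ (Ioo 0 s) (fun v => D.g s v) :=
        (SsVv_conv_v hR s).subset (fun t ht => ⟨by linarith [ht.1, ht.2], ht.2.le⟩) (convex_Ioo _ _)
      refine SsVv_second (f1 := fun t => D.gv s t) hf (fun t ht => ?_) ⟨hv, hvs⟩ ?_
      · have e1 := (((hD.a1 t ht.1.ne').mul_const s).add (hD.b1 t ht.1.ne')).add_const (D.h s)
        have e2 := e1.add ((hasDerivAt_id t).const_mul (D.c s))
        have e3 : D.a1 t * s + D.b1 t + D.c s * 1 = D.gv s t := by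
          unfold Da.gv
          ring
        rw [e3] at e2
        exact e2
      · have e1 := (((hD.a2 v hv).mul_const s).add (hD.b2 v hv)).add_const (D.c s)
        exact e1
    intro s v hv hvs
    have hcl : Ici v ⊆ {s : ℝ | 0 ≤ D.gvv s v} := by
      rw [← closure_Ioi]
      refine closure_minimal (fun t ht => key t v hv ht) (isClosed_le continuous_const ?_)
      unfold Da.gvv
      fun_prop
    exact hcl hvs

theorem cv {D : Da} (hR : RCc D.w) (s : ℝ) (hs : 0 < s) :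
    ConvexOn ℝ (Icc (-s) s) (fun v => D.a v * s + D.b v) := by
  obtain ⟨h1, h2⟩ := SsVv_conv_v hR s
  refine ⟨h1, fun x hx y hy α β hα hβ hαβ => ?_⟩
  have h := h2 hx hy hα hβ hαβ
  unfold Da.g at h
  simp only [smul_eq_mul] at h ⊢
  have e : D.h s = α * D.h s + β * D.h s := by rw [← add_mul, hαβ, one_mul]
  linarith

end Pool.Agent.TH937.FF5
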