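import Pool.Agent.TH937.FF5.Defs

/-!
# FF5: `X (s, m) ≥ -δ` for all `s ≥ m` when `m` is small
-/

set_option autoImplicit false

namespace Pool.Agent.TH937.FF5

open Set Filter Topology
open Pool.Agent.TH937.ZC (QL RCc)
open Pool.Agent.TH937.FF4 (Da)
open scoped ComplexConjugate

theorem Xlow_dgs {D : Da} (hD : Reg D) {s : ℝ} (hs : 0 < s) (v : ℝ) :
    HasDerivAt (fun s => D.g s v) (D.gs s v) s := by
  have h := ((((hasDerivAt_id s).const_mul (D.a v)).add_const (D.b v)).add (hD.h1 s hs)).add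
    ((hD.c1 s hs).mul_const v)
  refine h.congr_deriv ?_
  unfold Da.gs
  ring

theorem Xlow_dgv {D : Da} (hD : Reg D) (s : ℝ) {v : ℝ} (hv : v ≠ 0) :
    HasDerivAt (fun v => D.g s v) (D.gv s v) v := by
  have h := (((((hD.a1 v hv).mul_const s).add (hD.b1 v hv)).add_const (D.h s))).add
    ((hasDerivAt_id v).const_mul (D.c s))
  refine h.congr_deriv ?_
  unfold Da.gv
  ring

theorem Xlow_w (D : Da) (p q : ℝ) : D.w ((p : ℂ), (q : ℂ)) = D.g (|p| + |q|) (|p| - |q|) := by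
  unfold Da.w
  rw [Complex.norm_real, Complex.norm_real, Real.norm_eq_abs, Real.norm_eq_abs]

theorem Xlow_mid {D : Da} (hR : RCc D.w) {r τ : ℝ} (hτ : 0 < τ) (hτr : τ ≤ r) :
    0 ≤ D.g r (-r + 2 * τ) + D.g (r + 2 * τ) (-r) - 2 * D.g r (-r) := by
  have h := hR (((-τ : ℝ) : ℂ), ((r - τ : ℝ) : ℂ)) (((2 * τ : ℝ) : ℂ), ((2 * τ : ℝ) : ℂ)) rfl
    (1 / 2) (by norm_num) (by norm_num)
  have e1 : ((((-τ : ℝ) : ℂ), ((r - τ : ℝ) : ℂ)) : ℂ × ℂ) + (1 / 2 : ℝ) •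
      ((((2 * τ : ℝ) : ℂ), ((2 * τ : ℝ) : ℂ)) : ℂ × ℂ) = (((0 : ℝ) : ℂ), ((r : ℝ) : ℂ)) := by
    refine Prod.ext ?_ ?_
    · change ((-τ : ℝ) : ℂ) + (1 / 2 : ℝ) • ((2 * τ : ℝ) : ℂ) = ((0 : ℝ) : ℂ)
      rw [Complex.real_smul]
      push_cast
      ring
    · change ((r - τ : ℝ) : ℂ) + (1 / 2 : ℝ) • ((2 * τ : ℝ) : ℂ) = ((r : ℝ) : ℂ)
      rw [Complex.real_smul]
      push_cast
      ring
  have e2 : ((((-τ : ℝ) : ℂ), ((r - τ : ℝ) : ℂ)) : ℂ × ℂ) +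
      ((((2 * τ : ℝ) : ℂ), ((2 * τ : ℝ) : ℂ)) : ℂ × ℂ) = (((τ : ℝ) : ℂ), ((r + τ : ℝ) : ℂ)) := by
    refine Prod.ext ?_ ?_
    · change ((-τ : ℝ) : ℂ) + ((2 * τ : ℝ) : ℂ) = ((τ : ℝ) : ℂ)
      push_cast
      ring
    · change ((r - τ : ℝ) : ℂ) + ((2 * τ : ℝ) : ℂ) = ((r + τ : ℝ) : ℂ)
      push_cast
      ring
  rw [e1, e2, Xlow_w, Xlow_w, Xlow_w, abs_zero, abs_neg, abs_of_pos hτ,
    abs_of_nonneg (by linarith : 0 ≤ r), abs_of_nonneg (by linarith : 0 ≤ r - τ),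
    abs_of_nonneg (by linarith : 0 ≤ r + τ)] at h
  have f1 : (0 : ℝ) + r = r := zero_add r
  have f2 : (0 : ℝ) - r = -r := zero_sub r
  have f3 : τ + (r - τ) = r := by ring
  have f4 : τ - (r - τ) = -r + 2 * τ := by ring
  have f5 : τ + (r + τ) = r + 2 * τ := by ring
  have f6 : τ - (r + τ) = -r := by ring
  rw [f1, f2, f3, f4, f5, f6] at h
  linarith

theorem Xlow_bd {D : Da} (hD : Reg D) (hR : RCc D.w) {r : ℝ} (hr : 0 < r) : 0 ≤ D.X r (-r) := by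
  have e1 : HasDerivAt (fun τ : ℝ => D.g r (-r + 2 * τ)) (D.gv r (-r) * 2) 0 := by
    have h1 : HasDerivAt (fun v => D.g r v) (D.gv r (-r)) (-r + 2 * 0) := by
      rw [mul_zero, add_zero]
      exact Xlow_dgv hD r (by linarith : (-r) < 0).ne
    have h2 : HasDerivAt (fun τ : ℝ => -r + 2 * τ) 2 0 := by
      simpa using ((hasDerivAt_id (0 : ℝ)).const_mul 2).const_add (-r)
    exact h1.comp (0 : ℝ) h2
  have e2 : HasDerivAt (fun τ : ℝ => D.g (r + 2 * τ) (-r)) (D.gs r (-r) * 2) 0 := by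
    have h1 : HasDerivAt (fun s => D.g s (-r)) (D.gs r (-r)) (r + 2 * 0) := by
      rw [mul_zero, add_zero]
      exact Xlow_dgs hD hr (-r)
    have h2 : HasDerivAt (fun τ : ℝ => r + 2 * τ) 2 0 := by
      simpa using ((hasDerivAt_id (0 : ℝ)).const_mul 2).const_add r
    exact h1.comp (0 : ℝ) h2
  have h := ((e1.add e2).sub_const (2 * D.g r (-r))).tendsto_slope_zero_right
  have h1 : 0 ≤ D.gv r (-r) * 2 + D.gs r (-r) * 2 := by
    refine ge_of_tendsto h ?_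
    have h2 : Ioc (0 : ℝ) r ∈ 𝓝[>] (0 : ℝ) := Ioc_mem_nhdsGT hr
    filter_upwards [h2] with τ hτ
    have h3 := Xlow_mid (D := D) hR hτ.1 hτ.2
    rw [smul_eq_mul]
    refine mul_nonneg (inv_nonneg.2 hτ.1.le) ?_
    change 0 ≤ (D.g r (-r + 2 * (0 + τ)) + D.g (r + 2 * (0 + τ)) (-r) - 2 * D.g r (-r)) -
      (D.g r (-r + 2 * 0) + D.g (r + 2 * 0) (-r) - 2 * D.g r (-r))
    rw [zero_add, mul_zero, add_zero, add_zero]
    linarith
  unfold Da.X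
  have h2 : (r + -r) * D.gsv r (-r) = 0 := by ring
  rw [h2]
  linarith

theorem Xlow_diag (D : Da) {s v : ℝ} (h : |v| ≤ s) :
    D.w ((((v + s) / 2 : ℝ) : ℂ), (((v - s) / 2 : ℝ) : ℂ)) = D.g s v := by
  have h' := abs_le.1 h
  rw [Xlow_w, abs_of_nonneg (by linarith : 0 ≤ (v + s) / 2),
    abs_of_nonpos (by linarith : (v - s) / 2 ≤ 0)]
  have e1 : (v + s) / 2 - -((v - s) / 2) = v := by ring
  have e2 : (v + s) / 2 + -((v - s) / 2) = s := by ring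
  rw [e1, e2]

theorem Xlow_cvV {D : Da} (hR : RCc D.w) (s : ℝ) :
    ConvexOn ℝ (Icc (-s) s) (fun v => D.g s v) := by
  refine ⟨convex_Icc _ _, fun x hx y hy α β hα hβ hαβ => ?_⟩
  have hx' : |x| ≤ s := abs_le.2 hx
  have hy' : |y| ≤ s := abs_le.2 hy
  have hz : |α • x + β • y| ≤ s := abs_le.2 ((convex_Icc (-s) s) hx hy hα hβ hαβ)
  have h := hR ((((x + s) / 2 : ℝ) : ℂ), (((x - s) / 2 : ℝ) : ℂ))
    ((((y - x) / 2 : ℝ) : ℂ), (((y - x) / 2 : ℝ) : ℂ)) rfl β hβ (by linarith)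
  have e1 : ((((x + s) / 2 : ℝ) : ℂ), (((x - s) / 2 : ℝ) : ℂ))
      + ((((y - x) / 2 : ℝ) : ℂ), (((y - x) / 2 : ℝ) : ℂ))
      = ((((y + s) / 2 : ℝ) : ℂ), (((y - s) / 2 : ℝ) : ℂ)) := by
    rw [Prod.mk_add_mk]
    congr 1 <;> (push_cast; ring)
  have hα' : α = 1 - β := by linarith
  have e2 : ((((x + s) / 2 : ℝ) : ℂ), (((x - s) / 2 : ℝ) : ℂ))
      + β • ((((y - x) / 2 : ℝ) : ℂ), (((y - x) / 2 : ℝ) : ℂ))
      = ((((α • x + β • y + s) / 2 : ℝ) : ℂ), (((α • x + β • y - s) / 2 : ℝ) : ℂ)) := by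
    rw [Prod.smul_mk, Prod.mk_add_mk]
    simp only [Complex.real_smul, smul_eq_mul]
    rw [hα']
    congr 1 <;> (push_cast; ring)
  rw [e1, e2, Xlow_diag D hx', Xlow_diag D hy', Xlow_diag D hz] at h
  simp only [smul_eq_mul] at h ⊢
  rw [hα'] at h ⊢
  exact h

theorem Xlow_cvS {D : Da} (hR : RCc D.w) (v : ℝ) :
    ConvexOn ℝ (Ici |v|) (fun s => D.g s v) := by
  refine ⟨convex_Ici _, fun x hx y hy α β hα hβ hαβ => ?_⟩
  have hx' : |v| ≤ x := hx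
  have hy' : |v| ≤ y := hy
  have hz : |v| ≤ α • x + β • y := (convex_Ici |v|) hx hy hα hβ hαβ
  have hn : ‖(((y - x) / 2 : ℝ) : ℂ)‖ = ‖(((x - y) / 2 : ℝ) : ℂ)‖ := by
    rw [Complex.norm_real, Complex.norm_real, Real.norm_eq_abs, Real.norm_eq_abs, ← abs_neg]
    congr 1
    ring
  have h := hR ((((v + x) / 2 : ℝ) : ℂ), (((v - x) / 2 : ℝ) : ℂ))
    ((((y - x) / 2 : ℝ) : ℂ), (((x - y) / 2 : ℝ) : ℂ)) hn β hβ (by linarith)
  have e1 : ((((v + x) / 2 : ℝ) : ℂ), (((v - x) / 2 : ℝ) : ℂ))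
      + ((((y - x) / 2 : ℝ) : ℂ), (((x - y) / 2 : ℝ) : ℂ))
      = ((((v + y) / 2 : ℝ) : ℂ), (((v - y) / 2 : ℝ) : ℂ)) := by
    rw [Prod.mk_add_mk]
    congr 1 <;> (push_cast; ring)
  have hα' : α = 1 - β := by linarith
  have e2 : ((((v + x) / 2 : ℝ) : ℂ), (((v - x) / 2 : ℝ) : ℂ))
      + β • ((((y - x) / 2 : ℝ) : ℂ), (((x - y) / 2 : ℝ) : ℂ))
      = ((((v + (α • x + β • y)) / 2 : ℝ) : ℂ), (((v - (α • x + β • y)) / 2 : ℝ) : ℂ)) := by
    rw [Prod.smul_mk, Prod.mk_add_mk]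
    simp only [Complex.real_smul, smul_eq_mul]
    rw [hα']
    congr 1 <;> (push_cast; ring)
  rw [e1, e2, Xlow_diag D hx', Xlow_diag D hy', Xlow_diag D hz] at h
  simp only [smul_eq_mul] at h ⊢
  rw [hα'] at h ⊢
  exact h

theorem Xlow_cvab {D : Da} (hR : RCc D.w) (s : ℝ) :
    ConvexOn ℝ (Icc (-s) s) (fun v => D.a v * s + D.b v) := by
  refine ⟨convex_Icc _ _, fun x hx y hy α β hα hβ hαβ => ?_⟩
  have h := (Xlow_cvV hR s).2 hx hy hα hβ hαβ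
  simp only [smul_eq_mul, Da.g] at h ⊢
  have hα' : α = 1 - β := by linarith
  rw [hα'] at h ⊢
  linarith

/-- derivatives of a convex function are monotone -/
theorem Xlow_mono {S : Set ℝ} {f : ℝ → ℝ} (hf : ConvexOn ℝ S f) {x y p q : ℝ} (hx : x ∈ S)
    (hy : y ∈ S) (hxy : x < y) (hp : HasDerivAt f p x) (hq : HasDerivAt f q y) : p ≤ q :=
  (hf.le_slope_of_hasDerivAt hx hy hxy hp).trans (hf.slope_le_of_hasDerivAt hx hy hxy hq)

theorem Xlow_gss {D : Da} (hD : Reg D) (hR : RCc D.w) {s v : ℝ} (h : |v| < s) :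
    0 ≤ D.gss s v := by
  have hs : 0 < s := lt_of_le_of_lt (abs_nonneg v) h
  have e1 : HasDerivAt (fun s => D.gs s v) (D.gss s v) s := by
    have h := ((hD.h2 s hs).const_add (D.a v)).add ((hD.c2 s hs).mul_const v)
    exact h
  have h1 := e1.tendsto_slope_zero_right
  refine ge_of_tendsto h1 ?_
  filter_upwards [self_mem_nhdsWithin] with t ht
  have ht' : 0 < t := ht
  rw [smul_eq_mul]
  refine mul_nonneg (inv_nonneg.2 ht'.le) ?_
  have h2 := Xlow_mono (Xlow_cvS hR v) (x := s) (y := s + t) (mem_Ici.2 h.le)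
    (mem_Ici.2 (by linarith)) (by linarith) (Xlow_dgs hD hs v)
    (Xlow_dgs hD (by linarith : 0 < s + t) v)
  linarith

theorem Xlow_gss' {D : Da} (hD : Reg D) (hR : RCc D.w) {s : ℝ} (hs : 0 < s) :
    0 ≤ D.gss s (-s) := by
  have hc : Continuous (fun v : ℝ => D.gss s v) := by
    unfold Da.gss
    fun_prop
  have ht : Tendsto (fun v : ℝ => D.gss s v) (𝓝[>] (-s)) (𝓝 (D.gss s (-s))) :=
    (hc.tendsto (-s)).mono_left nhdsWithin_le_nhds
  refine ge_of_tendsto ht ?_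
  have h2 : Ioo (-s) s ∈ 𝓝[>] (-s) := Ioo_mem_nhdsGT (by linarith)
  filter_upwards [h2] with v hv
  exact Xlow_gss hD hR (abs_lt.2 hv)

theorem Xlow_chi {D : Da} (hD : Reg D) (hR : RCc D.w) {m s : ℝ} (hm : 0 < m) (hms : m ≤ s) :
    D.h1 m + D.c m - m * D.c1 m ≤ D.h1 s + D.c s - s * D.c1 s := by
  have hd : ∀ x, 0 < x → HasDerivAt (fun s => D.h1 s + D.c s - s * D.c1 s) (D.gss x (-x)) x := by
    intro x hx
    have h := ((hD.h2 x hx).add (hD.c1 x hx)).sub ((hasDerivAt_id x).mul (hD.c2 x hx))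
    refine h.congr_deriv ?_
    unfold Da.gss
    simp only [id]
    ring
  have hmono : MonotoneOn (fun s => D.h1 s + D.c s - s * D.c1 s) (Ici m) := by
    refine monotoneOn_of_deriv_nonneg (convex_Ici m)
      (fun x hx => (hd x (lt_of_lt_of_le hm hx)).continuousAt.continuousWithinAt)
      (fun x hx => ?_) (fun x hx => ?_)
    · rw [interior_Ici] at hx
      exact (hd x (lt_trans hm hx)).differentiableAt.differentiableWithinAt
    · rw [interior_Ici] at hx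
      rw [(hd x (lt_trans hm hx)).deriv]
      exact Xlow_gss' hD hR (lt_trans hm hx)
  exact hmono (mem_Ici.2 le_rfl) (mem_Ici.2 hms) hms

theorem Xlow_ab {D : Da} (hD : Reg D) (hR : RCc D.w) {m : ℝ} (hm : 0 < m) :
    D.a1 (-m) * m + D.b1 (-m) ≤ D.a1 m * m + D.b1 m := by
  have hc : Continuous (fun s : ℝ => (D.a1 m * s + D.b1 m) - (D.a1 (-m) * s + D.b1 (-m))) := by
    fun_prop
  have ht : Tendsto (fun s : ℝ => (D.a1 m * s + D.b1 m) - (D.a1 (-m) * s + D.b1 (-m))) (𝓝[>] m)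
      (𝓝 ((D.a1 m * m + D.b1 m) - (D.a1 (-m) * m + D.b1 (-m)))) :=
    (hc.tendsto m).mono_left nhdsWithin_le_nhds
  refine sub_nonneg.1 (ge_of_tendsto ht ?_)
  filter_upwards [self_mem_nhdsWithin] with s hs
  have hs' : m < s := hs
  refine sub_nonneg.2 ?_
  have h1 := ((hD.a1 (-m) (by linarith : (-m) < 0).ne).mul_const s).add
    (hD.b1 (-m) (by linarith : (-m) < 0).ne)
  have h2 := ((hD.a1 m hm.ne').mul_const s).add (hD.b1 m hm.ne')
  exact Xlow_mono (Xlow_cvab hR s) (x := -m) (y := m) ⟨by linarith, by linarith⟩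
    ⟨by linarith, by linarith⟩ (by linarith) h1 h2

theorem xlow {D : Da} (hD : Reg D) (hR : RCc D.w) {δ v0 : ℝ} (hδ : 0 < δ) (h0 : 0 < v0) :
    ∃ m, 0 < m ∧ m ≤ v0 ∧ ∀ s, m ≤ s → -δ ≤ D.X s m := by
  have hca : ConvexOn ℝ univ D.a := Pool.Agent.TH937.ZC.conv_a (fun s _ => Xlow_cvab hR s)
  have hK : D.a1 (-1) ≤ D.a1 1 := Xlow_mono hca (mem_univ _) (mem_univ _) (by norm_num)
    (hD.a1 (-1) (by norm_num)) (hD.a1 1 (by norm_num))
  set K : ℝ := D.a1 1 - D.a1 (-1) with hKd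
  have hK0 : 0 ≤ K := by linarith
  have hpos : 0 < 2 * K + 1 := by linarith
  set m : ℝ := min v0 (min 1 (δ / (2 * K + 1))) with hmd
  have hm : 0 < m := lt_min h0 (lt_min one_pos (div_pos hδ hpos))
  have hm1 : m ≤ 1 := (min_le_right _ _).trans (min_le_left _ _)
  have hm2 : m ≤ δ / (2 * K + 1) := (min_le_right _ _).trans (min_le_right _ _)
  have hm3 : m * (2 * K + 1) ≤ δ := (le_div_iff₀ hpos).1 hm2
  refine ⟨m, hm, min_le_left _ _, fun s hs => ?_⟩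
  have hmn : (-m) ≠ 0 := (by linarith : (-m) < 0).ne
  have h1 := Xlow_chi hD hR hm hs
  have h2 := Xlow_bd hD hR hm
  have h3 := Xlow_ab hD hR hm
  have h4 : D.a1 m ≤ D.a1 1 := by
    rcases hm1.eq_or_lt with h | h
    · rw [h]
    · exact Xlow_mono hca (mem_univ _) (mem_univ _) h (hD.a1 m hm.ne') (hD.a1 1 one_ne_zero)
  have h5 : D.a1 (-1) ≤ D.a1 (-m) := by
    rcases hm1.eq_or_lt with h | h
    · rw [h]
    · exact Xlow_mono hca (mem_univ _) (mem_univ _) (by linarith) (hD.a1 (-1) (by norm_num))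
        (hD.a1 (-m) hmn)
  have h6 : D.a1 (-m) * (2 * m) ≤ D.a m - D.a (-m) := by
    have h := hca.le_slope_of_hasDerivAt (mem_univ (-m)) (mem_univ m) (by linarith)
      (hD.a1 (-m) hmn)
    rw [slope_def_field, le_div_iff₀ (by linarith)] at h
    have e : m - -m = 2 * m := by ring
    rw [e] at h
    exact h
  have h7 : D.X m (-m) = D.a (-m) + D.b1 (-m) + m * D.a1 (-m)
      + (D.h1 m + D.c m - m * D.c1 m) := by
    unfold Da.X Da.gs Da.gv Da.gsv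
    ring
  have h8 : D.X s m = D.a m + D.b1 m - m * D.a1 m + (D.h1 s + D.c s - s * D.c1 s) := by
    unfold Da.X Da.gs Da.gv Da.gsv
    ring
  have h9 : m * (D.a1 m - D.a1 (-m)) ≤ m * K := by
    refine mul_le_mul_of_nonneg_left ?_ hm.le
    linarith
  rw [h7] at h2
  rw [h8]
  nlinarith

end Pool.Agent.TH937.FF5
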