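import Pool.Agent.TH937.FF5.Defs

/-! # FF5: `Y ≥ 0` for `v > 0` (job 5478, helper329) -/

set_option autoImplicit false

namespace Pool.Agent.TH937.FF5

open Set Filter Topology
open Pool.Agent.TH937.ZC (QL RCc)
open Pool.Agent.TH937.FF4 (Da)
open scoped ComplexConjugate

theorem Ypos_w (D : Da) {p q : ℝ} (hp : 0 ≤ p) (hq : 0 ≤ q) :
    D.w ((p : ℂ), (q : ℂ)) = D.g (p + q) (p - q) := by
  unfold Da.w
  rw [Complex.norm_real, Complex.norm_real, Real.norm_eq_abs, Real.norm_eq_abs,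
    abs_of_nonneg hp, abs_of_nonneg hq]

theorem Ypos_wa (D : Da) (p q : ℝ) :
    D.w ((p : ℂ), (q : ℂ)) = D.g (|p| + |q|) (|p| - |q|) := by
  unfold Da.w
  rw [Complex.norm_real, Complex.norm_real, Real.norm_eq_abs, Real.norm_eq_abs]

/-- the inequality in the direction `(1, 1)` -/
theorem Ypos_seg {D : Da} (hR : RCc D.w) (p q u t : ℝ) (ht0 : 0 ≤ t) (ht1 : t ≤ 1) :
    D.w (((p + t * u : ℝ) : ℂ), ((q + t * u : ℝ) : ℂ)) ≤
      (1 - t) * D.w ((p : ℂ), (q : ℂ)) + t * D.w (((p + u : ℝ) : ℂ), ((q + u : ℝ) : ℂ)) := by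
  have h := hR ((p : ℂ), (q : ℂ)) ((u : ℂ), (u : ℂ)) rfl t ht0 ht1
  have e1 : (((p : ℂ), (q : ℂ)) : ℂ × ℂ) + t • (((u : ℂ), (u : ℂ)) : ℂ × ℂ) =
      (((p + t * u : ℝ) : ℂ), ((q + t * u : ℝ) : ℂ)) := by
    refine Prod.ext ?_ ?_
    · change (p : ℂ) + t • (u : ℂ) = ((p + t * u : ℝ) : ℂ)
      rw [Complex.real_smul]
      push_cast
      ring
    · change (q : ℂ) + t • (u : ℂ) = ((q + t * u : ℝ) : ℂ)
      rw [Complex.real_smul]
      push_cast
      ring
  have e2 : (((p : ℂ), (q : ℂ)) : ℂ × ℂ) + (((u : ℂ), (u : ℂ)) : ℂ × ℂ) =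
      (((p + u : ℝ) : ℂ), ((q + u : ℝ) : ℂ)) := by
    refine Prod.ext ?_ ?_
    · change (p : ℂ) + (u : ℂ) = ((p + u : ℝ) : ℂ)
      push_cast
      ring
    · change (q : ℂ) + (u : ℂ) = ((q + u : ℝ) : ℂ)
      push_cast
      ring
  rwa [e1, e2] at h

theorem Ypos_conv {D : Da} (hR : RCc D.w) (v : ℝ) : ConvexOn ℝ (Ioi |v|) (fun s => D.g s v) := by
  refine ⟨convex_Ioi _, fun x hx y hy a b ha hb hab => ?_⟩
  have hx' : |v| < x := hx
  have hy' : |v| < y := hy
  obtain ⟨x1, x2⟩ := abs_lt.1 hx'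
  obtain ⟨y1, y2⟩ := abs_lt.1 hy'
  have h := Ypos_seg hR ((x + v) / 2) ((x - v) / 2) ((y - x) / 2) b hb (by linarith)
  have ea : a = 1 - b := by linarith
  have n1 : 0 ≤ (x + v) / 2 + b * ((y - x) / 2) := by
    have h1 := mul_nonneg ha (show 0 ≤ x + v by linarith)
    have h2 := mul_nonneg hb (show 0 ≤ y + v by linarith)
    rw [ea] at h1
    linarith
  have n2 : 0 ≤ (x - v) / 2 + b * ((y - x) / 2) := by
    have h1 := mul_nonneg ha (show 0 ≤ x - v by linarith)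
    have h2 := mul_nonneg hb (show 0 ≤ y - v by linarith)
    rw [ea] at h1
    linarith
  rw [Ypos_w D n1 n2, Ypos_w D (by linarith) (by linarith),
    Ypos_w D (by linarith) (by linarith)] at h
  have f1 : (x + v) / 2 + b * ((y - x) / 2) + ((x - v) / 2 + b * ((y - x) / 2)) =
      a * x + b * y := by rw [ea]; ring
  have f2 : (x + v) / 2 + b * ((y - x) / 2) - ((x - v) / 2 + b * ((y - x) / 2)) = v := by ring
  have f3 : (x + v) / 2 + (x - v) / 2 = x := by ring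
  have f4 : (x + v) / 2 - (x - v) / 2 = v := by ring
  have f5 : (x + v) / 2 + (y - x) / 2 + ((x - v) / 2 + (y - x) / 2) = y := by ring
  have f6 : (x + v) / 2 + (y - x) / 2 - ((x - v) / 2 + (y - x) / 2) = v := by ring
  rw [f1, f2, f3, f4, f5, f6, ← ea] at h
  simpa only [smul_eq_mul] using h

theorem Ypos_dgs {D : Da} (hD : Reg D) {s : ℝ} (hs : 0 < s) (v : ℝ) :
    HasDerivAt (fun s => D.g s v) (D.gs s v) s := by
  have h := ((((hasDerivAt_id s).const_mul (D.a v)).add_const (D.b v)).add (hD.h1 s hs)).add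
    ((hD.c1 s hs).mul_const v)
  refine h.congr_deriv ?_
  unfold Da.gs
  ring

theorem Ypos_dgv {D : Da} (hD : Reg D) (s : ℝ) {v : ℝ} (hv : 0 < v) :
    HasDerivAt (fun v => D.g s v) (D.gv s v) v := by
  have h := (((((hD.a1 v hv.ne').mul_const s).add (hD.b1 v hv.ne')).add_const (D.h s))).add
    ((hasDerivAt_id v).const_mul (D.c s))
  refine h.congr_deriv ?_
  unfold Da.gv
  ring

theorem Ypos_dgss {D : Da} (hD : Reg D) {s : ℝ} (hs : 0 < s) (v : ℝ) :
    HasDerivAt (fun s => D.gs s v) (D.gss s v) s := by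
  have h := ((hD.h2 s hs).const_add (D.a v)).add ((hD.c2 s hs).mul_const v)
  exact h

/-- `g_ss ≥ 0` in the interior -/
theorem Ypos_ss {D : Da} (hD : Reg D) (hR : RCc D.w) {s v : ℝ} (hv : |v| < s) :
    0 ≤ D.gss s v := by
  have hs : 0 < s := (abs_nonneg v).trans_lt hv
  have hc := Ypos_conv hR v
  have h := (Ypos_dgss hD hs v).tendsto_slope_zero_right
  refine ge_of_tendsto h ?_
  filter_upwards [self_mem_nhdsWithin] with t ht
  have ht' : 0 < t := ht
  have h1 := hc.le_slope_of_hasDerivAt (show s ∈ Ioi |v| from hv)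
    (show s + t ∈ Ioi |v| from by show |v| < s + t; linarith) (by linarith) (Ypos_dgs hD hs v)
  have h2 := hc.slope_le_of_hasDerivAt (show s ∈ Ioi |v| from hv)
    (show s + t ∈ Ioi |v| from by show |v| < s + t; linarith) (by linarith)
    (Ypos_dgs hD (show 0 < s + t by linarith) v)
  rw [smul_eq_mul]
  exact mul_nonneg (inv_nonneg.2 ht'.le) (by linarith)

theorem Ypos_ss1 {D : Da} (hD : Reg D) (hR : RCc D.w) {s : ℝ} (hs : 0 < s) :
    0 ≤ D.gss s s := by
  have h : Tendsto (fun v => D.gss s v) (𝓝[<] s) (𝓝 (D.gss s s)) := by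
    have hc : Continuous fun v => D.gss s v := by
      unfold Da.gss
      fun_prop
    exact (hc.tendsto s).mono_left nhdsWithin_le_nhds
  refine ge_of_tendsto h ?_
  have h2 : Ioo (0 : ℝ) s ∈ 𝓝[<] s := Ioo_mem_nhdsLT hs
  filter_upwards [h2] with v hv
  exact Ypos_ss hD hR (by rw [abs_of_pos hv.1]; exact hv.2)

theorem Ypos_dY {D : Da} (hD : Reg D) {s : ℝ} (hs : 0 < s) (v : ℝ) :
    HasDerivAt (fun s => D.Y s v) (D.gss s s) s := by
  have e1 := Ypos_dgss hD hs v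
  have e2 : HasDerivAt (fun s => D.gv s v) (D.gsv s v) s := by
    have h := (((hasDerivAt_id s).const_mul (D.a1 v)).add_const (D.b1 v)).add (hD.c1 s hs)
    refine h.congr_deriv ?_
    unfold Da.gsv
    ring
  have e3 : HasDerivAt (fun s => D.gsv s v) (D.c2 s) s := (hD.c2 s hs).const_add (D.a1 v)
  have e4 : HasDerivAt (fun s : ℝ => s - v) 1 s := (hasDerivAt_id s).sub_const v
  have h := (e1.sub e2).add (e4.mul e3)
  refine h.congr_deriv ?_
  unfold Da.gss
  ring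

theorem Ypos_mid {D : Da} (hR : RCc D.w) {r τ : ℝ} (hτ : 0 < τ) (hτr : τ ≤ r) :
    0 ≤ D.g r (r - 2 * τ) + D.g (r + 2 * τ) r - 2 * D.g r r := by
  have h := Ypos_seg hR (r - τ) (-τ) (2 * τ) (1 / 2) (by norm_num) (by norm_num)
  rw [Ypos_wa, Ypos_wa, Ypos_wa] at h
  have g1 : r - τ + 1 / 2 * (2 * τ) = r := by ring
  have g2 : -τ + 1 / 2 * (2 * τ) = 0 := by ring
  have g3 : r - τ + 2 * τ = r + τ := by ring
  have g4 : -τ + 2 * τ = τ := by ring
  rw [g1, g2, g3, g4, abs_zero, abs_neg, abs_of_pos hτ, abs_of_nonneg (by linarith : 0 ≤ r),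
    abs_of_nonneg (by linarith : 0 ≤ r - τ), abs_of_nonneg (by linarith : 0 ≤ r + τ)] at h
  have f1 : r + 0 = r := add_zero r
  have f2 : r - 0 = r := sub_zero r
  have f3 : r - τ + τ = r := by ring
  have f4 : r - τ - τ = r - 2 * τ := by ring
  have f5 : r + τ + τ = r + 2 * τ := by ring
  have f6 : r + τ - τ = r := by ring
  rw [f1, f2, f3, f4, f5, f6] at h
  linarith

theorem Ypos_bd {D : Da} (hD : Reg D) (hR : RCc D.w) {r : ℝ} (hr : 0 < r) : 0 ≤ D.Y r r := by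
  have e1 : HasDerivAt (fun τ : ℝ => D.g r (r - 2 * τ)) (D.gv r r * -2) 0 := by
    have h1 : HasDerivAt (fun v => D.g r v) (D.gv r r) (r - 2 * 0) := by
      rw [mul_zero, sub_zero]
      exact Ypos_dgv hD r hr
    have h2 : HasDerivAt (fun τ : ℝ => r - 2 * τ) (-2) 0 := by
      simpa using ((hasDerivAt_id (0 : ℝ)).const_mul 2).const_sub r
    exact h1.comp (0 : ℝ) h2
  have e2 : HasDerivAt (fun τ : ℝ => D.g (r + 2 * τ) r) (D.gs r r * 2) 0 := by
    have h1 : HasDerivAt (fun s => D.g s r) (D.gs r r) (r + 2 * 0) := by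
      rw [mul_zero, add_zero]
      exact Ypos_dgs hD hr r
    have h2 : HasDerivAt (fun τ : ℝ => r + 2 * τ) 2 0 := by
      simpa using ((hasDerivAt_id (0 : ℝ)).const_mul 2).const_add r
    exact h1.comp (0 : ℝ) h2
  have h := ((e1.add e2).sub_const (2 * D.g r r)).tendsto_slope_zero_right
  have h1 : 0 ≤ D.gv r r * -2 + D.gs r r * 2 := by
    refine ge_of_tendsto h ?_
    have h2 : Ioc (0 : ℝ) r ∈ 𝓝[>] (0 : ℝ) := Ioc_mem_nhdsGT hr
    filter_upwards [h2] with τ hτ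
    have h3 := Ypos_mid (D := D) hR hτ.1 hτ.2
    rw [smul_eq_mul]
    refine mul_nonneg (inv_nonneg.2 hτ.1.le) ?_
    change 0 ≤ (D.g r (r - 2 * (0 + τ)) + D.g (r + 2 * (0 + τ)) r - 2 * D.g r r) -
      (D.g r (r - 2 * 0) + D.g (r + 2 * 0) r - 2 * D.g r r)
    rw [zero_add, mul_zero, add_zero, sub_zero]
    linarith
  unfold Da.Y
  have h2 : (r - r) * D.gsv r r = 0 := by ring
  rw [h2]
  linarith

theorem ypos {D : Da} (hD : Reg D) (hR : RCc D.w) : ∀ s v, 0 < v → v ≤ s → 0 ≤ D.Y s v := by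
  intro s v hv hvs
  have h1 := Ypos_bd hD hR hv
  refine h1.trans ?_
  have hd : ∀ x, 0 < x → HasDerivAt (fun s => D.Y s v) (D.gss x x) x := fun x hx =>
    Ypos_dY hD hx v
  have hm : MonotoneOn (fun s => D.Y s v) (Ici v) := by
    refine monotoneOn_of_deriv_nonneg (convex_Ici v)
      (fun x hx => (hd x (lt_of_lt_of_le hv hx)).continuousAt.continuousWithinAt)
      (fun x hx => ?_) (fun x hx => ?_)
    · rw [interior_Ici] at hx
      exact (hd x (hv.trans hx)).differentiableAt.differentiableWithinAt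
    · rw [interior_Ici] at hx
      rw [(hd x (hv.trans hx)).deriv]
      exact Ypos_ss1 hD hR (hv.trans hx)
  exact hm (mem_Ici.2 le_rfl) (mem_Ici.2 hvs) hvs

end Pool.Agent.TH937.FF5
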