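import Pool.Agent.TH937.FF5.Pt
import Pool.Agent.TH937.FF4.Gen
import Pool.Agent.TH937.FF4.Mirror
import Pool.Agent.TH937.FF5.SsVv
import Pool.Agent.TH937.FF5.Xlow
import Pool.Agent.TH937.FF5.Ypos
import Pool.Agent.TH937.FF5.Ang
import Pool.Agent.TH937.FF5.Tl
import Pool.Agent.TH937.FF5.Pert

/-!
# Quasiconvexity of `W = a(v) s + b(v) + h(s) + c(s) v` for functions smooth away from `0`
-/

set_option autoImplicit false

namespace Pool.Agent.TH937.FF5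

open MeasureTheory Set Filter Topology
open scoped ComplexConjugate
open Pool.Agent.TH937.ZC (QL RCc QL_support QL_closed)
open Pool.Agent.TH937.FF4 (Da mirror_rc mirror_ql)

theorem al0 {D : Da} (hD : Reg D) (hR : RCc D.w) (s v : ℝ) (h0 : 0 < v) (hsv : v < s) :
    0 ≤ s * D.gs s v - v * D.gv s v := by
  have hp : 0 < (s + v) / 2 := by linarith
  have hq : 0 < (s - v) / 2 := by linarith
  have hpq : (s - v) / 2 < (s + v) / 2 := by linarith
  have h := ang hD hR (x := 0) (y := 0) hq hpq (by simp) (by simp)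
  have e1 : (s + v) / 2 + (s - v) / 2 = s := by ring
  have e2 : (s + v) / 2 - (s - v) / 2 = v := by ring
  rw [e1, e2] at h
  have e3 : ((D.gs s v + D.gv s v) * (1 - 0 ^ 2) / ((s + v) / 2)
      + (D.gs s v - D.gv s v) * (1 - 0 ^ 2) / ((s - v) / 2)) * ((s + v) * (s - v))
      = 4 * (s * D.gs s v - v * D.gv s v) := by
    have : s + v ≠ 0 := by linarith
    have : s - v ≠ 0 := by linarith
    field_simp
    ring
  have h5 : 0 ≤ (D.gs s v + D.gv s v) * (1 - 0 ^ 2) / ((s + v) / 2)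
      + (D.gs s v - D.gv s v) * (1 - 0 ^ 2) / ((s - v) / 2) := by
    have e4 : (0 : ℝ) ^ 2 = 0 := by norm_num
    rw [e4] at h ⊢
    linarith
  have h6 : 0 ≤ (s + v) * (s - v) := mul_nonneg (by linarith) (by linarith)
  have h7 := mul_nonneg h5 h6
  rw [e3] at h7
  linarith

theorem rx0 {D : Da} (hD : Reg D) (hR : RCc D.w) (s v l : ℝ) (h0 : 0 < v) (hsv : v < s)
    (hl : 0 ≤ l) : 0 ≤ D.gss s v + l ^ 2 * D.gvv s v + 2 * l * D.X s v / (s + v) := by
  have hp : 0 < (s + v) / 2 := by linarith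
  have hq : 0 < (s - v) / 2 := by linarith
  have hpq : (s - v) / 2 < (s + v) / 2 := by linarith
  have hl1 : 0 < 1 + l := by linarith
  have hx : |(1 - l) / (1 + l)| ≤ 1 := by
    rw [abs_div, abs_of_pos hl1, div_le_one hl1, abs_le]
    constructor <;> linarith
  have h := ang hD hR (x := (1 - l) / (1 + l)) (y := 1) hq hpq hx (by simp)
  have e1 : (s + v) / 2 + (s - v) / 2 = s := by ring
  have e2 : (s + v) / 2 - (s - v) / 2 = v := by ring
  rw [e1, e2] at h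
  have e3 : (D.gss s v + 2 * D.gsv s v + D.gvv s v) * ((1 - l) / (1 + l)) ^ 2
    + 2 * (D.gss s v - D.gvv s v) * ((1 - l) / (1 + l) * 1)
    + (D.gss s v - 2 * D.gsv s v + D.gvv s v) * 1 ^ 2
    + (D.gs s v + D.gv s v) * (1 - ((1 - l) / (1 + l)) ^ 2) / ((s + v) / 2)
    + (D.gs s v - D.gv s v) * (1 - 1 ^ 2) / ((s - v) / 2)
    = 4 / (1 + l) ^ 2 * (D.gss s v + l ^ 2 * D.gvv s v + 2 * l * D.X s v / (s + v)) := by
    have : s + v ≠ 0 := by linarith
    have : 1 + l ≠ 0 := hl1.ne'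
    unfold Da.X
    field_simp
    ring
  rw [e3] at h
  have h8 : 0 < 4 / (1 + l) ^ 2 := by positivity
  exact nonneg_of_mul_nonneg_right h h8

theorem cn5 {D : Da} (hD : Reg D) (hR : RCc D.w) {η δ v0 : ℝ} (hη : 0 ≤ η) (hδ : 0 < δ)
    (h0 : 0 < v0) : ∃ m, m ≤ v0 ∧ Cn (pert D η δ) η m := by
  obtain ⟨m, m0, mv, hm⟩ := xlow hD hR hδ h0
  obtain ⟨h1, h2⟩ := ss_vv hD hR
  refine ⟨m, mv, pert_cn hη hδ.le m0 h1 (fun s v a1 a2 => h2 s v (by linarith) a2) hm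
    (fun s v a1 a2 => ypos hD hR s v (by linarith) a2)
    (fun s v a1 a2 => al0 hD hR s v (by linarith) a2)
    (fun s v l a1 a2 a3 => rx0 hD hR s v l (by linarith) a2 a3) ?_⟩
  intro p0 q0 p q a1 a2 a3 a4 a5 a6
  exact tl hD hR a1 (by linarith) a2 (by linarith) a5 a6

theorem pert_w (D : Da) (η δ : ℝ) (F : ℂ × ℂ) :
    (pert D η δ).w F = D.w F + η * (‖F.1‖ ^ 2 + ‖F.2‖ ^ 2) + δ * (‖F.1‖ + ‖F.2‖) := by
  unfold Da.w Da.g pert
  simp only
  ring

theorem pert_cont {D : Da} (hw : Continuous D.w) (η δ : ℝ) : Continuous (pert D η δ).w := by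
  have : (pert D η δ).w = fun F =>
      D.w F + η * (‖F.1‖ ^ 2 + ‖F.2‖ ^ 2) + δ * (‖F.1‖ + ‖F.2‖) := funext (pert_w D η δ)
  rw [this]
  fun_prop

theorem pert_cv {D : Da} (hcv : ∀ s, 0 < s → ConvexOn ℝ (Icc (-s) s) (fun v => D.a v * s + D.b v))
    {η : ℝ} (hη : 0 ≤ η) (δ : ℝ) (s : ℝ) (hs : 0 < s) :
    ConvexOn ℝ (Icc (-s) s) (fun v => (pert D η δ).a v * s + (pert D η δ).b v) := by
  have h1 : ConvexOn ℝ (Icc (-s) s) (fun v : ℝ => η / 2 * v ^ 2) :=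
    (((Even.convexOn_pow (n := 2) (by norm_num)).subset (subset_univ _)
      (convex_Icc _ _)).smul (by positivity : 0 ≤ η / 2)).congr fun x _ => by simp
  have h2 := ((hcv s hs).add h1).add_const (δ * s)
  refine h2.congr fun x _ => ?_
  simp only [Pi.add_apply, pert]
  ring

theorem ql_pos {D : Da} (hD : Reg D) (hR : RCc D.w) (hw : Continuous D.w) {F0 : ℂ × ℂ}
    (h2 : 0 < ‖F0.2‖) (h1 : ‖F0.2‖ < ‖F0.1‖) : QL D.w F0 := by
  apply QL_support hw
  intro R ε hR' hε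
  set η := ε / (4 * R ^ 2) with hη
  set δ := ε / (4 * R) with hδ
  have hη0 : 0 < η := by positivity
  have hδ0 : 0 < δ := by positivity
  obtain ⟨m, mv, hc⟩ := cn5 hD hR hη0.le hδ0 (sub_pos.2 h1)
  refine ⟨(pert D η δ).w, pert_cont hw η δ, ql_pt (pert_reg hD η δ) hc
    (pert_cv (fun s hs => cv hR s hs) hη0.le δ) hη0 (pert_cont hw η δ) h2 mv, ?_, ?_⟩
  · intro F hF
    rw [pert_w]
    have n1 := norm_nonneg F.1
    have n2 := norm_nonneg F.2
    have h3 : ‖F.1‖ ^ 2 + ‖F.2‖ ^ 2 ≤ R ^ 2 := by nlinarith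
    have h4 := mul_le_mul_of_nonneg_left h3 hη0.le
    have h5 : η * R ^ 2 = ε / 4 := by rw [hη]; field_simp
    have h6 := mul_le_mul_of_nonneg_left hF hδ0.le
    have h7 : δ * R = ε / 4 := by rw [hδ]; field_simp
    linarith
  · rw [pert_w]
    have : 0 ≤ η * (‖F0.1‖ ^ 2 + ‖F0.2‖ ^ 2) := by positivity
    have : 0 ≤ δ * (‖F0.1‖ + ‖F0.2‖) := by positivity
    linarith

theorem mirror_w (D : Da) (F : ℂ × ℂ) : D.mirror.w F = D.w (F.2, F.1) := by
  unfold Da.w Da.g Da.mirror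
  simp only
  have e1 : ‖F.2‖ + ‖F.1‖ = ‖F.1‖ + ‖F.2‖ := add_comm _ _
  have e2 : -(‖F.1‖ - ‖F.2‖) = ‖F.2‖ - ‖F.1‖ := by ring
  rw [e1, e2]
  ring

theorem mirror_cont {D : Da} (hw : Continuous D.w) : Continuous D.mirror.w := by
  have : D.mirror.w = fun F => D.w (F.2, F.1) := funext (mirror_w D)
  rw [this]
  fun_prop

theorem ql_gen {D : Da} (hD : Reg D) (hD' : Reg D.mirror) (hR : RCc D.w) (hw : Continuous D.w)
    {F0 : ℂ × ℂ} (h1 : F0.1 ≠ 0) (h2 : F0.2 ≠ 0) (h3 : ‖F0.1‖ ≠ ‖F0.2‖) : QL D.w F0 := by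
  have n1 := norm_pos_iff.2 h1
  have n2 := norm_pos_iff.2 h2
  rcases lt_or_gt_of_ne h3 with h | h
  · apply mirror_ql
    apply ql_pos hD' (mirror_rc hR) (mirror_cont hw)
    · simpa using n1
    · simpa using h
  · exact ql_pos hD hR hw n2 h

/-- **the theorem for functions smooth away from `0`** -/
theorem ql_all {D : Da} (hD : Reg D) (hD' : Reg D.mirror) (hR : RCc D.w) (hw : Continuous D.w)
    (F0 : ℂ × ℂ) : QL D.w F0 := by
  apply QL_closed hw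
  intro δ hδ
  obtain ⟨F1, h1, h2, h3, h4⟩ := Pool.Agent.TH937.FF4.dense F0 hδ
  exact ⟨F1, h1, ql_gen hD hD' hR hw h2 h3 h4⟩

end Pool.Agent.TH937.FF5
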