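import Pool.Agent.TH937.FF5.Defs

/-!
# The reflected function (project FF5)
-/

set_option autoImplicit false

namespace Pool.Agent.TH937.FF5

open Set Filter Topology
open Pool.Agent.TH937.ZC (QL RCc)
open Pool.Agent.TH937.FF4 (Da)
open scoped ComplexConjugate

lemma mirror_comp_neg (f : ℝ → ℝ) (f' x : ℝ) (h : HasDerivAt f f' (-x)) :
    HasDerivAt (fun v => f (-v)) (-f') x := by
  have h1 : HasDerivAt (fun v => f (-v)) (f' * -1) x := h.comp x (hasDerivAt_neg x)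
  exact h1.congr_deriv (by ring)

theorem mirror_reg {D : Da} (hD : Reg D)
    (hn : ∀ x, x < 0 → HasDerivAt D.a1 (D.a2 x) x ∧ HasDerivAt D.b1 (D.b2 x) x)
    (hl : ∀ r R : ℝ, 0 < r → ∃ L : ℝ, ∀ x y, r ≤ x → x ≤ R → r ≤ y → y ≤ R →
      |D.a2 (-x) - D.a2 (-y)| ≤ L * |x - y| ∧ |D.b2 (-x) - D.b2 (-y)| ≤ L * |x - y|) :
    Reg D.mirror where
  ca := hD.ca.comp continuous_neg
  cb := hD.cb.comp continuous_neg
  a1 := fun x hx => mirror_comp_neg _ _ x (hD.a1 (-x) (neg_ne_zero.2 hx))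
  b1 := fun x hx => mirror_comp_neg _ _ x (hD.b1 (-x) (neg_ne_zero.2 hx))
  h1 := hD.h1
  c1 := fun x hx => (hD.c1 x hx).neg
  a2 := fun x hx => by
    have h1 : HasDerivAt (fun v => -D.a1 (-v)) (- -D.a2 (-x)) x :=
      (mirror_comp_neg _ _ x (hn (-x) (by linarith)).1).neg
    exact h1.congr_deriv (neg_neg _)
  b2 := fun x hx => by
    have h1 : HasDerivAt (fun v => -D.b1 (-v)) (- -D.b2 (-x)) x :=
      (mirror_comp_neg _ _ x (hn (-x) (by linarith)).2).neg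
    exact h1.congr_deriv (neg_neg _)
  h2 := hD.h2
  c2 := fun x hx => (hD.c2 x hx).neg
  la := fun r R hr => by
    obtain ⟨L, hL⟩ := hl r R hr
    exact ⟨L, fun x y h1 h2 h3 h4 => (hL x y h1 h2 h3 h4).1⟩
  lb := fun r R hr => by
    obtain ⟨L, hL⟩ := hl r R hr
    exact ⟨L, fun x y h1 h2 h3 h4 => (hL x y h1 h2 h3 h4).2⟩

end Pool.Agent.TH937.FF5
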