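import Pool.Agent.TH937.FF5.Defs

/-!
# FF5: monotonicity of the slopes along the curve
-/

set_option autoImplicit false

namespace Pool.Agent.TH937.FF5

open Set Filter Topology
open Pool.Agent.TH937.ZC (QL RCc)
open Pool.Agent.TH937.FF4 (Da)
open scoped ComplexConjugate

/-- facts at a point of the curve -/
theorem mono_pt {D : Da} {m : ℝ} {s0 v0 S : ℝ} {γ : ℝ → ℝ} (hγ : Cv D m s0 v0 S γ) {s : ℝ}
    (hs : s ∈ Icc s0 S) : 0 < γ s ∧ m ≤ γ s ∧ γ s < s ∧ 0 < s := by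
  have h1 := hγ.bd s hs
  have h2 := hγ.m0
  have h3 := hγ.hv
  have h4 := hs.1
  refine ⟨by linarith [h1.1], h1.1, by linarith [h1.2], by linarith [h1.1, h1.2]⟩

theorem mono_gs {D : Da} {m : ℝ} (hD : Reg D) {s0 v0 S : ℝ} {γ : ℝ → ℝ}
    (hγ : Cv D m s0 v0 S γ) {s : ℝ} (hs : s ∈ Icc s0 S) :
    HasDerivWithinAt (fun s => D.gs s (γ s))
      (D.gss s (γ s) + D.gsv s (γ s) * D.fm s (γ s)) (Icc s0 S) s := by
  obtain ⟨h0, h1, h2, h3⟩ := mono_pt hγ hs
  have hg := hγ.de s hs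
  have ha := (hD.a1 (γ s) h0.ne').comp_hasDerivWithinAt s hg
  have hh := (hD.h2 s h3).hasDerivWithinAt (s := Icc s0 S)
  have hc := (hD.c2 s h3).hasDerivWithinAt (s := Icc s0 S)
  have key := (ha.add hh).add (hc.mul hg)
  refine (key.congr_deriv ?_).congr_of_eventuallyEq (Filter.Eventually.of_forall fun x => ?_) ?_
  · unfold Da.gss Da.gsv
    ring
  · simp only [Da.gs, Pi.add_apply, Pi.mul_apply, Function.comp_apply]
  · simp only [Da.gs, Pi.add_apply, Pi.mul_apply, Function.comp_apply]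

theorem mono_gv {D : Da} {m : ℝ} (hD : Reg D) {s0 v0 S : ℝ} {γ : ℝ → ℝ}
    (hγ : Cv D m s0 v0 S γ) {s : ℝ} (hs : s ∈ Icc s0 S) :
    HasDerivWithinAt (fun s => D.gv s (γ s))
      (D.gsv s (γ s) + D.gvv s (γ s) * D.fm s (γ s)) (Icc s0 S) s := by
  obtain ⟨h0, h1, h2, h3⟩ := mono_pt hγ hs
  have hg := hγ.de s hs
  have ha := (hD.a2 (γ s) h0).comp_hasDerivWithinAt s hg
  have hb := (hD.b2 (γ s) h0).comp_hasDerivWithinAt s hg
  have hc := (hD.c1 s h3).hasDerivWithinAt (s := Icc s0 S)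
  have key := ((ha.mul (hasDerivWithinAt_id s (Icc s0 S))).add hb).add hc
  refine (key.congr_deriv ?_).congr_of_eventuallyEq (Filter.Eventually.of_forall fun x => ?_) ?_
  · simp only [Da.gsv, Da.gvv, Function.comp_apply, id]
    ring
  · simp only [Da.gv, Pi.add_apply, Pi.mul_apply, Function.comp_apply, id]
  · simp only [Da.gv, Pi.add_apply, Pi.mul_apply, Function.comp_apply, id]

theorem mono_gsv_cont {D : Da} {m : ℝ} (hD : Reg D) {s0 v0 S : ℝ} {γ : ℝ → ℝ}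
    (hγ : Cv D m s0 v0 S γ) : ContinuousOn (fun s => D.gsv s (γ s)) (Icc s0 S) := by
  intro s hs
  obtain ⟨h0, h1, h2, h3⟩ := mono_pt hγ hs
  have hg := hγ.de s hs
  have ha := ((hD.a2 (γ s) h0).comp_hasDerivWithinAt s hg).continuousWithinAt
  have hc := ((hD.c2 s h3).hasDerivWithinAt (s := Icc s0 S)).continuousWithinAt
  exact ha.add hc

theorem mono_T_cont {D : Da} {m : ℝ} (hD : Reg D) {s0 v0 S : ℝ} {γ : ℝ → ℝ}
    (hγ : Cv D m s0 v0 S γ) (v : ℝ) :
    ContinuousOn (fun s => (D.gs s (γ s) - γ s * D.kk s (γ s)) + D.kk s (γ s) * v)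
      (Icc s0 S) := by
  have h1 : ContinuousOn (fun s => D.gs s (γ s)) (Icc s0 S) := fun s hs =>
    (mono_gs hD hγ hs).continuousWithinAt
  have h2 : ContinuousOn (fun s => D.gv s (γ s)) (Icc s0 S) := fun s hs =>
    (mono_gv hD hγ hs).continuousWithinAt
  have h3 := mono_gsv_cont hD hγ
  have h4 : ContinuousOn γ (Icc s0 S) := fun s hs => (hγ.de s hs).continuousWithinAt
  have h5 : ContinuousOn (fun s => D.X s (γ s)) (Icc s0 S) := by
    unfold Da.X
    exact (h1.add h2).sub ((continuousOn_id.add h4).mul h3)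
  have h6 : ContinuousOn (fun s => D.kk s (γ s)) (Icc s0 S) := by
    unfold Da.kk
    have h5' : ContinuousOn (fun s => min (D.X s (γ s)) 0) (Icc s0 S) :=
      (continuous_id.min continuous_const).comp_continuousOn h5
    refine h3.add (h5'.div (continuousOn_id.add h4) ?_)
    intro s hs
    obtain ⟨h0, -, -, h3⟩ := mono_pt hγ hs
    have : 0 < s + γ s := by linarith
    exact this.ne'
  exact (h1.sub (h4.mul h6)).add (h6.mul continuousOn_const)

theorem mono_first {D : Da} {η m : ℝ} (hD : Reg D) (hc : Cn D η m) (hη : 0 < η)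
    {s0 v0 S sb : ℝ} {γ : ℝ → ℝ} (hγ : Cv D m s0 v0 S γ) (hb : sb ∈ Icc s0 S)
    (p1 : ∀ s ∈ Ico s0 sb, D.X s (γ s) ≤ 0) (v : ℝ) :
    MonotoneOn (fun s => (D.gs s (γ s) - γ s * D.kk s (γ s)) + D.kk s (γ s) * v)
      (Icc s0 sb ∩ Ici |v|) := by
  have hconv : Convex ℝ (Icc s0 sb ∩ Ici |v|) := (convex_Icc _ _).inter (convex_Ici _)
  have hint : interior (Icc s0 sb ∩ Ici |v|) = Ioo s0 sb ∩ Ioi |v| := by
    rw [interior_inter, interior_Icc, interior_Ici]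
  have hsub : Icc s0 sb ⊆ Icc s0 S := Icc_subset_Icc_right hb.2
  refine monotoneOn_of_hasDerivWithinAt_nonneg hconv
    (f' := fun s => (D.gss s (γ s) - D.fm s (γ s) ^ 2 * D.gvv s (γ s)) * (s + v) / (s + γ s))
    ((mono_T_cont hD hγ v).mono (inter_subset_left.trans hsub)) ?_ ?_
  · rw [hint]
    intro s hs
    have hsI : s ∈ Icc s0 S := ⟨hs.1.1.le, hs.1.2.le.trans hb.2⟩
    have hX : D.X s (γ s) ≤ 0 := p1 s ⟨hs.1.1.le, hs.1.2⟩
    obtain ⟨h0, h1, h2, h3⟩ := mono_pt hγ hsI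
    have hd : 0 < s + γ s := by linarith
    have hq : 0 < D.gvv s (γ s) := hη.trans_le (hc.vv s (γ s) h1 h2.le)
    have hp : D.fm s (γ s) * ((s + γ s) * D.gvv s (γ s)) = D.X s (γ s) := by
      unfold Da.fm
      rw [min_eq_left hX]
      field_simp
    have hss : Ioo s0 sb ∩ Ioi |v| ⊆ Icc s0 S := fun x hx =>
      ⟨hx.1.1.le, hx.1.2.le.trans hb.2⟩
    have e1 := (mono_gs hD hγ hsI).mono hss
    have e2 := (mono_gv hD hγ hsI).mono hss
    have e3 := (hγ.de s hsI).mono hss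
    have e4 := (hasDerivWithinAt_id s (Ioo s0 sb ∩ Ioi |v|)).add e3
    have e5 := (e1.add e2).div e4 hd.ne'
    have e6 := (e1.sub (e3.mul e5)).add (e5.mul_const v)
    refine (e6.congr_deriv ?_).congr_of_eventuallyEq ?_ ?_
    · have hA : D.gs s (γ s) + D.gv s (γ s) =
          (s + γ s) * (D.gsv s (γ s) + D.fm s (γ s) * D.gvv s (γ s)) := by
        unfold Da.X at hp
        linarith
      simp only [Pi.add_apply, id, Pi.div_apply]
      rw [hA]
      field_simp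
      ring
    · filter_upwards [self_mem_nhdsWithin] with x hx
      have hxI : x ∈ Icc s0 S := hss hx
      have hXx : D.X x (γ x) ≤ 0 := p1 x ⟨hx.1.1.le, hx.1.2⟩
      obtain ⟨k0, k1, k2, k3⟩ := mono_pt hγ hxI
      have kd : 0 < x + γ x := by linarith
      have hk : D.kk x (γ x) = (D.gs x (γ x) + D.gv x (γ x)) / (x + γ x) := by
        unfold Da.kk
        rw [min_eq_left hXx]
        unfold Da.X
        field_simp
        ring
      simp only [hk, Pi.add_apply, Pi.sub_apply, Pi.mul_apply, Pi.div_apply, id]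
    · have hk : D.kk s (γ s) = (D.gs s (γ s) + D.gv s (γ s)) / (s + γ s) := by
        unfold Da.kk
        rw [min_eq_left hX]
        unfold Da.X
        field_simp
        ring
      simp only [hk, Pi.add_apply, Pi.sub_apply, Pi.mul_apply, Pi.div_apply, id]
  · rw [hint]
    intro s hs
    have hsI : s ∈ Icc s0 S := ⟨hs.1.1.le, hs.1.2.le.trans hb.2⟩
    have hX : D.X s (γ s) ≤ 0 := p1 s ⟨hs.1.1.le, hs.1.2⟩
    obtain ⟨h0, h1, h2, h3⟩ := mono_pt hγ hsI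
    have hd : 0 < s + γ s := by linarith
    have hq : 0 < D.gvv s (γ s) := hη.trans_le (hc.vv s (γ s) h1 h2.le)
    have hp : D.fm s (γ s) * ((s + γ s) * D.gvv s (γ s)) = D.X s (γ s) := by
      unfold Da.fm
      rw [min_eq_left hX]
      field_simp
    have hf : D.fm s (γ s) ≤ 0 := by
      unfold Da.fm
      rw [min_eq_left hX]
      exact div_nonpos_of_nonpos_of_nonneg hX (by positivity)
    have hr := hc.rx s (γ s) (-D.fm s (γ s)) h1 h2 (by linarith)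
    have hr2 : 2 * (-D.fm s (γ s)) * D.X s (γ s) / (s + γ s) =
        -2 * D.fm s (γ s) ^ 2 * D.gvv s (γ s) := by
      rw [← hp]
      field_simp
    rw [hr2] at hr
    have hsv : 0 < s + v := by
      have h5 : |v| < s := hs.2
      have h6 := neg_abs_le v
      linarith
    have h7 : 0 ≤ D.gss s (γ s) - D.fm s (γ s) ^ 2 * D.gvv s (γ s) := by
      nlinarith
    positivity

theorem mono_second {D : Da} {η m : ℝ} (hD : Reg D) (hc : Cn D η m)
    {s0 v0 S sb : ℝ} {γ : ℝ → ℝ} (hγ : Cv D m s0 v0 S γ) (hb : sb ∈ Icc s0 S)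
    (p2 : ∀ s ∈ Ioc sb S, γ s = γ sb ∧ 0 ≤ D.X s (γ s)) (v : ℝ) :
    MonotoneOn (fun s => (D.gs s (γ s) - γ s * D.kk s (γ s)) + D.kk s (γ s) * v)
      (Icc sb S ∩ Ici |v|) := by
  have hconv : Convex ℝ (Icc sb S ∩ Ici |v|) := (convex_Icc _ _).inter (convex_Ici _)
  have hint : interior (Icc sb S ∩ Ici |v|) = Ioo sb S ∩ Ioi |v| := by
    rw [interior_inter, interior_Icc, interior_Ici]
  have hsub : Icc sb S ⊆ Icc s0 S := Icc_subset_Icc_left hb.1
  refine monotoneOn_of_hasDerivWithinAt_nonneg hconv (f' := fun s => D.gss s v)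
    ((mono_T_cont hD hγ v).mono (inter_subset_left.trans hsub)) ?_ ?_
  · rw [hint]
    intro s hs
    have hss : Ioo sb S ∩ Ioi |v| ⊆ Icc s0 S := fun x hx =>
      ⟨hb.1.trans hx.1.1.le, hx.1.2.le⟩
    obtain ⟨h0, h1, h2, h3⟩ := mono_pt hγ (hss hs)
    have hT : ∀ x ∈ Ioo sb S ∩ Ioi |v|,
        (D.gs x (γ x) - γ x * D.kk x (γ x)) + D.kk x (γ x) * v =
          (D.a (γ sb) - γ sb * D.a1 (γ sb) + D.a1 (γ sb) * v) + (D.h1 x + D.c1 x * v) := by
      intro x hx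
      obtain ⟨q1, q2⟩ := p2 x ⟨hx.1.1, hx.1.2.le⟩
      have hk : D.kk x (γ x) = D.gsv x (γ x) := by
        unfold Da.kk
        rw [min_eq_right q2, zero_div, add_zero]
      rw [hk, q1]
      unfold Da.gs Da.gsv
      ring
    have e1 := ((hD.h2 s h3).add ((hD.c2 s h3).mul_const v)).const_add
      (D.a (γ sb) - γ sb * D.a1 (γ sb) + D.a1 (γ sb) * v)
    have e2 := e1.hasDerivWithinAt (s := Ioo sb S ∩ Ioi |v|)
    refine (e2.congr_deriv ?_).congr_of_eventuallyEq ?_ ?_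
    · unfold Da.gss
      ring
    · filter_upwards [self_mem_nhdsWithin] with x hx
      rw [hT x hx]
      simp only [Pi.add_apply]
    · rw [hT s hs]
      simp only [Pi.add_apply]
  · rw [hint]
    intro s hs
    have h5 : |v| < s := hs.2
    exact hc.ss s v h5.le ((abs_nonneg v).trans_lt h5)

theorem mono {D : Da} {η m : ℝ} (hD : Reg D) (hc : Cn D η m) (hη : 0 < η) {s0 v0 S sb : ℝ}
    {γ : ℝ → ℝ} (hγ : Cv D m s0 v0 S γ) (hb : sb ∈ Icc s0 S)
    (p1 : ∀ s ∈ Ico s0 sb, D.X s (γ s) ≤ 0)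
    (p2 : ∀ s ∈ Ioc sb S, γ s = γ sb ∧ 0 ≤ D.X s (γ s)) (v : ℝ) :
    MonotoneOn (fun s => (D.gs s (γ s) - γ s * D.kk s (γ s)) + D.kk s (γ s) * v)
      (Icc s0 S ∩ Ici |v|) := by
  have m1 := mono_first hD hc hη hγ hb p1 v
  have m2 := mono_second hD hc hγ hb p2 v
  intro x hx y hy hxy
  rcases le_total y sb with h | h
  · exact m1 ⟨⟨hx.1.1, hxy.trans h⟩, hx.2⟩ ⟨⟨hy.1.1, h⟩, hy.2⟩ hxy
  · rcases le_total sb x with h' | h'
    · exact m2 ⟨⟨h', hx.1.2⟩, hx.2⟩ ⟨⟨h, hy.1.2⟩, hy.2⟩ hxy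
    · have hv : |v| ≤ x := hx.2
      refine le_trans (m1 ⟨⟨hx.1.1, h'⟩, hx.2⟩ ⟨⟨hb.1, le_rfl⟩, hv.trans h'⟩ h')
        (m2 ⟨⟨le_rfl, hb.2⟩, hv.trans h'⟩ ⟨⟨h, hy.1.2⟩, hy.2⟩ h)

end Pool.Agent.TH937.FF5
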