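import Pool.Agent.TH937.FF5.Tf

/-!
# Quasiconvexity at the points with `0 < v < s`
-/

set_option autoImplicit false

namespace Pool.Agent.TH937.FF5

open Set Filter Topology
open Pool.Agent.TH937.ZC (QL RCc DH Zk QL_support QL_add QL_sum QL_smul QL_Zk cont_Zk)
open Pool.Agent.TH937.ZC.DH (At Bt al e)
open Pool.Agent.TH937.FF4 (Da ql_T)

theorem dh {D : Da} (hD : Reg D)
    (hcv : ∀ s, 0 < s → ConvexOn ℝ (Icc (-s) s) (fun v => D.a v * s + D.b v)) {r : ℝ}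
    (hr : 0 < r) : DH D.a D.b r (D.a1 r) (D.b1 r) := by
  obtain ⟨ha, hb⟩ := Pool.Agent.TH937.ZC.gs_cont hcv
  exact ⟨hcv, Pool.Agent.TH937.ZC.conv_a hcv, ha, hb, hr, hD.a1 r hr.ne', hD.b1 r hr.ne'⟩

/-- the kernels -/
theorem kers {D : Da} (hD : Reg D)
    (hcv : ∀ s, 0 < s → ConvexOn ℝ (Icc (-s) s) (fun v => D.a v * s + D.b v)) {r : ℝ}
    (hr : 0 < r)
    {R ε : ℝ} (hR : 0 < R) (hε : 0 < ε) : ∃ Z : ℂ × ℂ → ℝ, Continuous Z ∧ (∀ F0, QL Z F0) ∧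
      (∀ F : ℂ × ℂ, r ≤ ‖F.1‖ - ‖F.2‖ → Z F = 0) ∧
      (∀ F : ℂ × ℂ, ‖F.1‖ + ‖F.2‖ ≤ R → ‖F.1‖ - ‖F.2‖ ≤ r →
        D.low r (‖F.1‖ + ‖F.2‖) (‖F.1‖ - ‖F.2‖) + Z F
          ≤ D.g (‖F.1‖ + ‖F.2‖) (‖F.1‖ - ‖F.2‖) + ε) := by
  have H := dh hD hcv hr
  obtain ⟨N, hN, hap⟩ := H.approx hR hε
  refine ⟨fun F => ∑ i ∈ Finset.range N, al D.a r (D.a1 r) N i * Zk (e r N i) ‖F.1‖ ‖F.2‖,
    continuous_finsetSum _ fun i _ => continuous_const.mul (cont_Zk _), ?_, ?_, ?_⟩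
  · intro F0
    apply QL_sum
    · intro i
      exact continuous_const.mul (cont_Zk _)
    · intro i hi
      exact QL_smul (H.al_nonneg hN i)
        (QL_Zk (DH.e_pos H.pos hN (Finset.mem_range.1 hi)) F0)
  · intro F hF
    apply Finset.sum_eq_zero
    intro i _
    unfold Zk
    rw [max_eq_right (by linarith [DH.e_le H.pos (N := N) (i := i)]), mul_zero, mul_zero]
  · intro F hF hv
    have n1 := norm_nonneg F.1
    have n2 := norm_nonneg F.2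
    have h1 := hap (‖F.1‖ + ‖F.2‖) (‖F.1‖ - ‖F.2‖) (by
      rw [abs_le]; constructor <;> linarith) hF
    rw [DH.ker_eq] at h1
    unfold Da.low Da.g
    simp only
    nlinarith

/-- an inequality between continuous functions extends to the origin -/
theorem at_zero {f g : ℂ × ℂ → ℝ} (hf : Continuous f) (hg : Continuous g)
    (h : ∀ F : ℂ × ℂ, 0 < ‖F.1‖ + ‖F.2‖ → ‖F.1‖ + ‖F.2‖ < 1 → f F ≤ g F) {F : ℂ × ℂ}
    (hF : ‖F.1‖ + ‖F.2‖ = 0) : f F ≤ g F := by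
  have n1 := norm_nonneg F.1
  have n2 := norm_nonneg F.2
  have e1 : F.1 = 0 := norm_eq_zero.1 (by linarith)
  have e2 : F.2 = 0 := norm_eq_zero.1 (by linarith)
  have e3 : F = (0, 0) := Prod.ext e1 e2
  have hc : Continuous (fun t : ℝ => ((t : ℂ), (0 : ℂ))) := by fun_prop
  have t1 : Tendsto (fun t : ℝ => f ((t : ℂ), (0 : ℂ))) (𝓝[>] 0) (𝓝 (f F)) := by
    have := (hf.comp hc).tendsto (0 : ℝ)
    simp only [Function.comp_def, Complex.ofReal_zero] at this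
    rw [e3]
    exact this.mono_left nhdsWithin_le_nhds
  have t2 : Tendsto (fun t : ℝ => g ((t : ℂ), (0 : ℂ))) (𝓝[>] 0) (𝓝 (g F)) := by
    have := (hg.comp hc).tendsto (0 : ℝ)
    simp only [Function.comp_def, Complex.ofReal_zero] at this
    rw [e3]
    exact this.mono_left nhdsWithin_le_nhds
  refine le_of_tendsto_of_tendsto t1 t2 ?_
  have h01 : Ioo (0 : ℝ) 1 ∈ 𝓝[>] (0 : ℝ) := Ioo_mem_nhdsGT (by norm_num)
  filter_upwards [h01] with t ht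
  apply h
  · simp [abs_of_pos ht.1, ht.1]
  · simp only [Complex.norm_real, Real.norm_eq_abs, norm_zero, add_zero]
    rw [abs_of_pos ht.1]
    exact ht.2

theorem ql_pt {D : Da} {η m : ℝ} (hD : Reg D) (hc : Cn D η m)
    (hcv : ∀ s, 0 < s → ConvexOn ℝ (Icc (-s) s) (fun v => D.a v * s + D.b v)) (hη : 0 < η)
    (hw : Continuous D.w)
    {F0 : ℂ × ℂ} (h2 : 0 < ‖F0.2‖) (h1 : m ≤ ‖F0.1‖ - ‖F0.2‖) : QL D.w F0 := by
  apply QL_support hw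
  intro R' ε hR' hε
  obtain ⟨R, hRR, hR1, hR⟩ : ∃ R, R' ≤ R ∧ 1 ≤ R ∧ 0 < R :=
    ⟨max R' 1, le_max_left _ _, le_max_right _ _, lt_of_lt_of_le hR' (le_max_left _ _)⟩
  set s0 := ‖F0.1‖ + ‖F0.2‖ with hs0
  set v0 := ‖F0.1‖ - ‖F0.2‖ with hv0
  have hm0 := hc.m0
  have hv0p : 0 < v0 := by linarith
  have hvs : v0 < s0 := by rw [hv0, hs0]; linarith
  obtain ⟨r, hr0, hrv, hX, A, C, k1, k2, k3, k4⟩ := tfun hD hc hη h1 hvs
    (S := max R s0 + 1) (by linarith [le_max_right R s0])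
  obtain ⟨Z, hZc, hZq, hZ0, hZl⟩ := kers hD hcv (by linarith : 0 < r) hR hε
  obtain ⟨cT, qT⟩ := ql_T k1 k2 F0
  have main : ∀ F : ℂ × ℂ, 0 < ‖F.1‖ + ‖F.2‖ → ‖F.1‖ + ‖F.2‖ ≤ R →
      (A (‖F.1‖ + ‖F.2‖) + C (‖F.1‖ + ‖F.2‖) * (‖F.1‖ - ‖F.2‖)) + Z F ≤ D.w F + ε := by
    intro F hF0 hF
    have n1 := norm_nonneg F.1
    have n2 := norm_nonneg F.2
    have hab : |‖F.1‖ - ‖F.2‖| ≤ ‖F.1‖ + ‖F.2‖ := by
      rw [abs_le]; constructor <;> linarith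
    have key : (r ≤ ‖F.1‖ - ‖F.2‖ → A (‖F.1‖ + ‖F.2‖) + C (‖F.1‖ + ‖F.2‖) * (‖F.1‖ - ‖F.2‖)
        ≤ D.g (‖F.1‖ + ‖F.2‖) (‖F.1‖ - ‖F.2‖)) ∧
        (‖F.1‖ - ‖F.2‖ ≤ r → A (‖F.1‖ + ‖F.2‖) + C (‖F.1‖ + ‖F.2‖) * (‖F.1‖ - ‖F.2‖)
        ≤ D.low r (‖F.1‖ + ‖F.2‖) (‖F.1‖ - ‖F.2‖)) := by
      rcases le_total s0 (‖F.1‖ + ‖F.2‖) with h | h
      · exact k4 _ _ hab h (by linarith [le_max_left R s0])
      · rw [k3 _ _ h]
        rcases le_total (‖F.1‖ - ‖F.2‖) v0 with h' | h'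
        · exact three hD hc hη.le hvs hr0 hrv hX hF0 hab h h'
        · refine ⟨fun _ => two hD hc hη.le h1 hvs h' (abs_le.1 hab).2 h, fun h'' => ?_⟩
          have e1 : ‖F.1‖ - ‖F.2‖ = v0 := by linarith
          exact (three hD hc hη.le hvs hr0 hrv hX hF0 hab h e1.le).2 h''
    rcases le_total r (‖F.1‖ - ‖F.2‖) with h | h
    · rw [hZ0 F h]
      have := key.1 h
      unfold Da.w
      linarith
    · have h3 := key.2 h
      have h4 := hZl F hF h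
      unfold Da.w
      linarith
  refine ⟨fun F => (A (‖F.1‖ + ‖F.2‖) + C (‖F.1‖ + ‖F.2‖) * (‖F.1‖ - ‖F.2‖)) + Z F,
    cT.add hZc, QL_add cT hZc qT (hZq F0), ?_, ?_⟩
  · intro F hF
    have n1 := norm_nonneg F.1
    have n2 := norm_nonneg F.2
    rcases eq_or_lt_of_le (add_nonneg n1 n2) with h | h
    · exact at_zero (cT.add hZc) (hw.add continuous_const)
        (fun G g1 g2 => main G g1 (by linarith)) h.symm
    · exact main F h (by linarith)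
  · simp only
    rw [hZ0 F0 (by rw [← hv0]; exact hrv)]
    have h3 := k3 s0 v0 le_rfl
    rw [← hs0, ← hv0, h3]
    unfold Da.lt Da.w
    rw [← hs0, ← hv0]
    have : D.g s0 v0 + D.gs s0 v0 * (s0 - s0) + D.gv s0 v0 * (v0 - v0)
        + D.kk s0 v0 * ((s0 - s0) * (v0 - v0)) = D.g s0 v0 := by ring
    rw [this]
    linarith

end Pool.Agent.TH937.FF5
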