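import Pool.Agent.TH937.FF4.Glue
import Pool.Agent.TH937.FF4.Qlt
import Pool.Agent.TH937.FF5.Ode
import Pool.Agent.TH937.FF5.Phase
import Pool.Agent.TH937.FF5.Der
import Pool.Agent.TH937.FF5.Mono
import Pool.Agent.TH937.FF5.Signs
import Pool.Agent.TH937.FF5.Up
import Pool.Agent.TH937.FF5.Two
import Pool.Agent.TH937.FF5.Three

/-!
# The supporting function of the class `α(s) + β(s) v`
-/

set_option autoImplicit false

namespace Pool.Agent.TH937.FF5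

open Set Filter Topology
open Pool.Agent.TH937.ZC (QL RCc)
open Pool.Agent.TH937.FF4 (Da glue)

theorem tfun {D : Da} {η m : ℝ} (hD : Reg D) (hc : Cn D η m) (hη : 0 < η) {s0 v0 S : ℝ}
    (h0 : m ≤ v0) (hv : v0 < s0) (hS : s0 < S) :
    ∃ r, m ≤ r ∧ r ≤ v0 ∧ (∀ v, r ≤ v → v ≤ v0 → r < v0 → D.X s0 v ≤ 0) ∧
    ∃ A C : ℝ → ℝ,
      (∀ τ : ℝ, ConvexOn ℝ (Ici |τ|) (fun t => A t + C t * τ)) ∧
      (∀ u t, 0 ≤ u → u ≤ t →
        A u + C u * t ≤ A t + C t * u ∧ A u - C u * t ≤ A t - C t * u) ∧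
      (∀ s v, s ≤ s0 → A s + C s * v = D.lt s0 v0 s v) ∧
      (∀ s v, |v| ≤ s → s0 ≤ s → s ≤ S → (r ≤ v → A s + C s * v ≤ D.g s v) ∧
        (v ≤ r → A s + C s * v ≤ D.low r s v)) := by
  obtain ⟨γ, hγ⟩ := curve hD hc hη h0 hv hS
  obtain ⟨sb, hb, p1, p2, han, hX⟩ := phase hD hc hη hγ
  have hmS : S ∈ Icc s0 S := ⟨hS.le, le_rfl⟩
  have hm0 : s0 ∈ Icc s0 S := ⟨le_rfl, hS.le⟩
  refine ⟨γ S, (hγ.bd S hmS).1, (hγ.bd S hmS).2, hX, ?_⟩
  obtain ⟨A, C, e1, e2, k1, k2⟩ := glue (A := fun s => D.g s (γ s) - γ s * D.gv s (γ s))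
    (C := fun s => D.gv s (γ s)) (A1 := fun s => D.gs s (γ s) - γ s * D.kk s (γ s))
    (C1 := fun s => D.kk s (γ s)) (by linarith [hc.m0]) hS
    (fun s hs => (der hD hc hη hγ hs).2) (fun s hs => (der hD hc hη hγ hs).1)
    (fun v => mono hD hc hη hγ hb p1 p2 v)
    (fun s hs => (signs hc (hγ.bd s hs).1 (by linarith [(hγ.bd s hs).2, hs.1])).1)
    (fun s hs => (signs hc (hγ.bd s hs).1 (by linarith [(hγ.bd s hs).2, hs.1])).2)
  refine ⟨A, C, k1, k2, ?_, ?_⟩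
  · intro s v hs
    obtain ⟨a1, a2⟩ := e2 s hs
    rw [a1, a2, hγ.ini]
    unfold Da.lt
    ring
  · intro s v hvs h1 h2
    have hs : s ∈ Icc s0 S := ⟨h1, h2⟩
    obtain ⟨a1, a2⟩ := e1 s hs
    rw [a1, a2]
    have hu := up hD hc hη.le (hγ.bd S hmS).1 (han hs hmS h2)
      (by linarith [(hγ.bd s hs).2] : γ s < s) hvs
    have e : D.g s (γ s) - γ s * D.gv s (γ s) + D.gv s (γ s) * v
        = D.g s (γ s) + D.gv s (γ s) * (v - γ s) := by ring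
    rw [e]
    exact hu

end Pool.Agent.TH937.FF5
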